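import Pool.Agent.H18.PN.Pyr
import Pool.Agent.H78.PSQ2.Pec

/-!
# The data of a jointly nonfull pair of any radius at a record

`rows_stg`: the two rows with the radius `R q`. `stgd_rec`: `pairy_rec` with a free radius, a free
window and a free base window, in a subclass with the same record.
-/

set_option autoImplicit false

namespace Pool.PN18

open Finset Real MvPolynomial
open Pool.Agent.H49.Ent Pool.Agent.H32.Dense Pool.STK Pool.KA Pool.KSAT Pool.K2S Pool.PB Pool.GEN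
open Pool.S6C Pool.RCD Pool.LA91 Pool.OWN68 Pool.AJW Pool.AJX Pool.CHT Pool.PKG Pool.ALT
open Pool.V0F (LbU)
open Pool.CR99 (PairE)

/-- **The rows of a pair of radius `R q`** at a record. -/
theorem rows_stg {r D : ℕ} (hr : 1 ≤ r) {S : PCl (r + 2)} {al : ℝ} {g₀ : ℝ → ℝ}
    {P : List (Fin (r + 2)) × Fin (r + 2) → ℝ → ℝ → ℝ}
    {θ : ℝ} {P₂ : ℕ → List (Fin (r + 2)) × Fin (r + 2) → ℝ → ℝ → ℝ} {θ₂ Eb e₂ : ℕ → ℝ}
    {c : ℕ → Fin (r + 2)} {Pt : ℝ → ℝ → ℝ} {rt : ℝ → ℝ} {h K₀ g : ℝ} {L T : ℕ → ℝ → ℝ → ℝ}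
    {Sl : ℕ → ℝ} {κ : ℕ → Kg} {G : Set ℝ} {S₀ N : ℕ} {A V : ℕ → ℝ} {S₂ N' : ℕ} {V' : ℕ → ℝ}
    {K' ε q t : ℝ}
    (Rc : RecG S al g₀ P θ P₂ θ₂ Eb e₂ c Pt rt h K₀ g L T Sl κ G S₀ N A V S₂ N' V' K' ε q t)
    (hκ : ∀ l < r, κ l = .one) {a b τ R : ℝ} (haE : Sl r = a) (hbE : Sl (r + 1) = b) (ha : 1 < a)
    (hb : 0 < b) (hab : b ≤ a) (hR : 0 < R) (hτ : R < τ) (hh1 : h ≤ 1) (hε : 0 < ε)
    (hcu : ∀ w ∈ G, ∃ rd : ℕ → ℝ, (∀ l < r + 1, 0 ≤ rd l) ∧
      Chn S c 0 (r + 1) w w (L r w w) (fun l => L l w w) rd) {e₀ ρ₀ π₀ μ : ℝ} (hμ : 0 < μ)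
    (hρ₀ : ρ₀ + μ ≤ 1) (halt : ∀ w ∈ G, |w - g| ≤ μ → AltC S c r L e₀ ρ₀ π₀ μ w)
    (hnear : ∀ x : ℝ, |x| ≤ K' → |t + x * q - g| ≤ μ)
    {k : ℕ} {ph el dl : ℝ} (hFN : AltAt S ((range (r + 1)).image c) ((range r).image c)
      (c (r + 1)) (max D D * max 1 D) e₀ ρ₀ π₀ (fun w => L (r + 1) w w) g ph el k)
    (hel : 0 ≤ el) (hdl : 0 ≤ dl) (hdlb : dl ≤ b * Real.log 2) (hph : b * Real.log 2 - dl ≤ ph)
    (hk1 : g - (1 / 2) ^ k ≤ t + -τ * q) (hk2 : t + -τ * q + R * q ≤ g + (1 / 2) ^ k)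
    -- the family
    {Ψ : Fm2 (r + 2)} {e X ℓ : ℝ}
    (hΨ : Pool.RW37.PsL Ψ c 0 r (max D D * max 1 D) e (eP r L (e₀ - μ / 2) (t + -τ * q))
      (t + -τ * q) (ℓ * q) (fun _ => L r (t + -τ * q) (t + -τ * q) + μ / 4)
      (fun l => L l (t + -τ * q) (t + -τ * q))
      (nX r (fun l x => L l x x) (t + -τ * q) (X * q)))
    -- the windows
    {ms : ℝ} (hms0 : 0 < ms)
    (hgap : ∀ y, -τ ≤ y → y ≤ -τ + R → ∃ w, |w| ≤ K' ∧ t + w * q ∈ G ∧ |w - y| ≤ ms)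
    (hvG : t + -τ * q ∈ G)
    -- the numbers
    (hX2 : 2 * (a * R) + 2 ≤ X)
    (hℓ2 : 3 ^ r * X + R + 1 ≤ ℓ) (hℓ3 : a * R + R + 1 ≤ ℓ) (hK1 : ℓ + 1 ≤ K')
    (hK2 : τ + 3 ^ r * X ≤ K') (hK3 : b * τ + b * R + 2 ≤ K') (hK4 : a * R + τ + 2 ≤ K')
    (he : 0 < e)
    (he64 : e ≤ q / 64) (hεe : 2 * (ε * q) ≤ e) (hbτ : b * R * q + e + 2 * (ε * q) ≤ b * τ * q)
    (hqμ : (a * R + b * R + 4) * q ≤ μ / 4)
    {δ : ℝ}
    (hδ : (2 * ε * q + (r + 1) * (8 * e)) + (3 * (e + 8 * e) + 6 * (b * (ms * q))) +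
      (3 * e + 8 * e + a * (2 * (ms * q))) + el * (1 / 2) ^ k + dl * (R * q) < δ * (R * q))
    (N₀ : ℕ) :
    Rw2 S Ψ (c r) (c (r + 1)) (t + -τ * q) (L r (t + -τ * q) (t + -τ * q))
      (L (r + 1) (t + -τ * q) (t + -τ * q)) a b (R * q) (h * b) (δ * (R * q)) N₀ ∧
    Rw2 S Ψ.swap (c (r + 1)) (c r) (t + -τ * q) (L (r + 1) (t + -τ * q) (t + -τ * q))
      (L r (t + -τ * q) (t + -τ * q)) b a (R * q) (h * b) (δ * (R * q)) N₀ := by
  have hq := Rc.q0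
  have ht0 := Rc.t0
  have ht1 := Rc.t1
  have htm := Rc.tmc
  have hpos := Rc.pos
  have ha0 : 0 < a := by linarith only [ha]
  have hτ0 : 0 < τ := by linarith only [hR, hτ]
  have hr0 : (0 : ℝ) ≤ r := Nat.cast_nonneg r
  have h3X : X ≤ 3 ^ r * X := by
    have h1 : (1 : ℝ) ≤ 3 ^ r := one_le_pow₀ (by norm_num)
    have h2 : 0 ≤ X := by
      have := mul_pos ha0 hR
      linarith only [hX2, this]
    exact le_mul_of_one_le_left h2 h1
  have haa : 0 < a * R := mul_pos ha0 hR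
  have habm : 0 < b * R := mul_pos hb hR
  have hX0 : 0 < X := by linarith only [hX2, haa]
  have hεq : 0 < ε * q := mul_pos hε hq
  have hτK : τ ≤ K' := by linarith only [hK4, haa]
  have hK0 : 0 < K' := by linarith only [hτK, hτ0]
  have hKq : 0 < K' * q := mul_pos hK0 hq
  have hvK : |(-τ : ℝ)| ≤ K' := by
    rw [abs_neg, abs_of_pos hτ0]
    exact hτK
  have h0K : |(0 : ℝ)| ≤ K' := by
    rw [abs_zero]
    exact hK0.le
  have e0 : t + 0 * q = t := by rw [zero_mul, add_zero]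
  -- the window `v`
  have hdv := fun l (hl : l < r + 2) => Rc.dL2 (l := l) hl hvK h0K
  rw [e0] at hdv
  have hCv := halt _ hvG (hnear _ hvK)
  have hbox : ∀ w : ℝ, t + -τ * q ≤ w → w ≤ t → |w - t| ≤ K' * q := fun w h1 h2 => by
    rw [abs_le]
    have h3 : τ * q ≤ K' * q := mul_le_mul_of_nonneg_right hτK hq.le
    exact ⟨by linarith only [h1, h3], by linarith only [h2, hKq]⟩
  have hdw : ∀ l < r + 2, ∀ w : ℝ, t + -τ * q ≤ w → w ≤ t →
      |L l w w - L l (t + -τ * q) (t + -τ * q) - Sl l * (w - (t + -τ * q))| ≤ 2 * (ε * q) := by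
    intro l hl w h1 h2
    have hτq : 0 < τ * q := mul_pos hτ0 hq
    have h3 := abs_le.1 (Rc.dL l hl w (hbox w h1 h2))
    have h4 := abs_le.1 (Rc.dL l hl (t + -τ * q) (hbox _ le_rfl (by linarith only [hτq])))
    have e1 : Sl l * (w - t) = Sl l * (w - (t + -τ * q)) + Sl l * (t + -τ * q - t) := by ring
    rw [e1] at h3
    rw [abs_le]
    exact ⟨by linarith only [h3.1, h4.2], by linarith only [h3.2, h4.1]⟩
  obtain ⟨v, hv⟩ : ∃ v, v = t + -τ * q := ⟨_, rfl⟩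
  have hv' : v = t - τ * q := by rw [hv]; ring
  have hroom : ∀ j ≤ r + 1, L j v v + 3 * K' * q < 1 := by
    intro j hj
    have W := Rc.tg (r + 1) (by omega) (by omega)
    have h1 := W.room j hj v (by rw [hv]; exact hbox _ le_rfl (by
      linarith only [mul_pos hτ0 hq]))
    have h2 := W.Eb0
    linarith only [h1, h2]
  rw [← hv] at hdv hCv hdw hΨ hvG hk1 hk2 ⊢
  obtain ⟨rk, E', b1, b2, b3, b4, b5, b6, b7, b8, b9, b10⟩ := hCv
  have hτq : 0 < τ * q := mul_pos hτ0 hq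
  have haq : 0 < R * q := mul_pos hR hq
  have hK4q : (a * R + τ + 2) * q ≤ K' * q := mul_le_mul_of_nonneg_right hK4 hq.le
  have hK1q : (ℓ + 1) * q ≤ K' * q := mul_le_mul_of_nonneg_right hK1 hq.le
  have hK2q : (τ + 3 ^ r * X) * q ≤ K' * q := mul_le_mul_of_nonneg_right hK2 hq.le
  have hK3q : (b * τ + b * R + 2) * q ≤ K' * q := mul_le_mul_of_nonneg_right hK3 hq.le
  have haaq : 0 < a * R * q := mul_pos haa hq
  have habq : 0 < b * R * q := mul_pos habm hq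
  have hvt : v ≤ t := by linarith only [hv', hτq]
  have hv0 : 0 ≤ v := by linarith only [hv', ht0, hK4q, haaq, hq]
  have hvq : q ≤ v := by linarith only [hv', ht0, hK4q, haaq, hq]
  have ht1' : t ≤ 1 := by linarith only [ht1, hKq]
  have hv1 : v ≤ 1 := hvt.trans ht1'
  have hdN := abs_le.1 (hdv (r + 1) (by omega))
  rw [hbE] at hdN
  have eN1 : b * ((-τ - 0) * q) = -(b * τ * q) := by ring
  rw [eN1] at hdN
  obtain ⟨Nv, hNv⟩ : ∃ Nv, Nv = L (r + 1) v v := ⟨_, rfl⟩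
  obtain ⟨Nt, hNt⟩ : ∃ Nt, Nt = L (r + 1) t t := ⟨_, rfl⟩
  obtain ⟨Uv, hUv⟩ : ∃ Uv, Uv = L r v v := ⟨_, rfl⟩
  have hNlow : v ≤ Nv := by rw [hNv]; exact Rc.low_at (by omega) hv0 le_rfl hv1
  -- the exponents
  have hEr : ∀ i ≤ r, eP r L (e₀ - μ / 2) v i = max 0 (Uv - L i v v) := fun i hi => by
    rw [eP_lt L _ _ hi, hUv]
  have hE0 : ∀ i ≤ r, 0 ≤ eP r L (e₀ - μ / 2) v i ∧
      L i v v + eP r L (e₀ - μ / 2) v i + 3 * K' * q ≤ 1 := by
    intro i hi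
    rw [hEr i hi]
    refine ⟨le_max_left _ _, ?_⟩
    have h1 := hroom i (by omega)
    have h2 := hroom r (by omega)
    rw [← hUv] at h2
    rcases max_choice 0 (Uv - L i v v) with h3 | h3
    · rw [h3]
      linarith only [h1]
    · rw [h3]
      linarith only [h2]
  have hL0 : ∀ i ≤ r + 1, 0 ≤ L i v v := fun i hi =>
    hv0.trans (Rc.low_at (by omega) hv0 le_rfl hv1)
  have hUvρ : Uv + μ ≤ ρ₀ := by rw [hUv]; exact b6
  have hUv0 : 0 ≤ Uv := by rw [hUv]; exact hL0 r (by omega)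
  -- the sum over the places
  have hf : ∀ l, aX r (X * q) l ≤ 3 ^ r * X * q := fun l => by
    unfold aX
    have h1 : (3 : ℝ) ^ (r - 1 - l) ≤ 3 ^ r := pow_le_pow_right₀ (by norm_num) (by omega)
    have h2 := mul_le_mul_of_nonneg_right h1 (mul_pos hX0 hq).le
    linarith only [h2]
  have hf2 : ∀ l, X * q ≤ aX r (X * q) l := fun l => aX_ge (mul_pos hX0 hq).le l
  have hf3 : ∀ l < r, ∀ l' < l, 3 * aX r (X * q) l ≤ aX r (X * q) l' := fun l hl l' hl' => by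
    unfold aX
    have h1 : (3 : ℝ) ^ (r - 1 - l + 1) ≤ 3 ^ (r - 1 - l') :=
      pow_le_pow_right₀ (by norm_num) (by omega)
    rw [pow_succ] at h1
    have h2 := mul_le_mul_of_nonneg_right h1 (mul_pos hX0 hq).le
    linarith only [h2]
  have hXq : (2 * (a * R) + 2) * q ≤ X * q := mul_le_mul_of_nonneg_right hX2 hq.le
  have hℓ2q : (3 ^ r * X + R + 1) * q ≤ ℓ * q := mul_le_mul_of_nonneg_right hℓ2 hq.le
  have hℓ3q : (a * R + R + 1) * q ≤ ℓ * q := mul_le_mul_of_nonneg_right hℓ3 hq.le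
  have h3Xq : X * q ≤ 3 ^ r * X * q := mul_le_mul_of_nonneg_right h3X hq.le
  have hXq0 : 0 < X * q := mul_pos hX0 hq
  -- the near windows of `G`
  obtain ⟨G', hG'⟩ : ∃ G' : Set ℝ, G' = {w | w ∈ G ∧ |w - g| ≤ μ} := ⟨_, rfl⟩
  have hGm : ∀ w, w ∈ G' ↔ w ∈ G ∧ |w - g| ≤ μ := fun w => by rw [hG']; rfl
  have hvG' : v ∈ G' := (hGm v).2 ⟨hvG, by rw [hv]; exact hnear _ hvK⟩
  have hch : ∀ w ∈ G', ∃ (u₁ : ℝ) (rd : ℕ → ℝ), (∀ i, 0 ≤ i → i ≤ r → 0 ≤ rd i) ∧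
      Chn S c 0 (r + 1) w w u₁ (fun l => L l w w) rd := fun w hw => by
    obtain ⟨rd, h1, h2⟩ := hcu w ((hGm w).1 hw).1
    exact ⟨_, rd, fun i _ hi => h1 i (by omega), h2⟩
  have hchl : Pool.RW37.ChlG S c 0 (r + 1) (fun l x => L l x x) G' := by
    intro w hw
    obtain ⟨rd, h1, h2⟩ := hcu w ((hGm w).1 hw).1
    obtain ⟨rk', E'', c1, -, c3, -, -, -, -, -, -, c10⟩ := halt w ((hGm w).1 hw).1 ((hGm w).1 hw).2
    refine ⟨L r w w, fun i => if i = r + 1 then rk' else rd i, fun i _ hi => ?_, ?_, E'', c3, ?_⟩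
    · by_cases h3 : i = r + 1
      · show 0 ≤ if i = r + 1 then rk' else rd i
        rw [if_pos h3]
        exact c1
      · show 0 ≤ if i = r + 1 then rk' else rd i
        rw [if_neg h3]
        exact h1 i (by omega)
    · refine ⟨h2.hr, h2.inj, h2.w0, h2.wu0, h2.u0, h2.wu1, h2.u1, h2.s0, fun i a b => ?_,
        fun i a b => ?_, h2.base, h2.pre, h2.ful⟩
      · show (if i = r + 1 then rk' else rd i) < 1
        rw [if_neg (by omega)]
        exact h2.r1 i a b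
      · show Att S ((range i).image c) (c i) w (L i w w) (if i = r + 1 then rk' else rd i)
        rw [if_neg (by omega)]
        exact h2.att i a b
    · show LbU S ((range (r + 1)).image c) (c (r + 1)) w (L (r + 1) w w)
        (if r + 1 = r + 1 then rk' else rd (r + 1)) E''
      rw [if_pos rfl]
      exact c10
  -- the rows
  have hrows := Pool.RW37.rows_ps htm hpos (Ψ := Ψ)
    (c := c) (r := r) (K := max D D * max 1 D) (K1 := max D D * max 1 D) (k := k)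
    (sn := fun l x => L l x x) (G := G') (n := nX r (fun l x => L l x x) v (X * q))
    (f := aX r (X * q)) (Sl := Sl) (E := eP r L (e₀ - μ / 2) v)
    (rd := fun _ => L r v v + μ / 4) (v := v) (Q := R * q) (lam := ℓ * q) (ρ := 8 * e)
    (ρ₀ := ms * q) (φ := e) (Λ := a) (h := h) (δ₁ := 2 * ε * q) (g₀ := q) (e := e)
    hΨ hchl hch hv0 hvG' haq.le (fun x hx1 hx2 => ?_)
    (mul_pos hms0 hq) (by linarith only [he]) he.le (by
      linarith only [hK1q, ht1, hvt, hq]) (fun l hl => ?_) (by rw [hbE]; exact hb)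
    (by rw [hbE, haE]; exact hab) (hL0 (r + 1) le_rfl) (fun l _ => rfl)
    (fun l hl l' hl' => ?_) (fun l hl => ?_) (fun l hl => ?_) ?_ hq (fun i hi => ?_)
    (fun i hi => ?_) (fun i hi => ?_) ?_ ?_ (fun Q' hQ1 hQ2 => ?_) (by
      linarith only [hεq]) hh1 hFN hel hk1 hk2 hdl (by rw [hbE]; exact hdlb)
    (by rw [hbE]; exact hph) le_rfl ?_ ?_ ?_ he ?_ (δ := δ * (R * q)) (by
      rw [haE, hbE]
      exact hδ) N₀
  rotate_left
  · -- the gaps
    obtain ⟨w, w1, w2, w3⟩ := hgap ((x - t) / q) (by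
      rw [le_div_iff₀ hq]
      linarith only [hx1, hv']) (by
      rw [div_le_iff₀ hq]
      linarith only [hx2, hv'])
    refine ⟨t + w * q, (hGm _).2 ⟨w2, hnear _ w1⟩, ?_⟩
    have e1 : t + w * q - x = (w - (x - t) / q) * q := by
      field_simp
      ring
    rw [e1, abs_mul, abs_of_pos hq]
    exact mul_le_mul_of_nonneg_right w3 hq.le
  · -- the slopes
    have h1 : 0 ≤ Sl l ∧ Sl l ≤ a := by
      rcases Nat.lt_trichotomy l r with h1 | h1 | h1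
      · have h2 := Rc.kd l (by omega)
        rw [hκ l h1] at h2
        have h3 : Sl l = 1 := h2
        rw [h3]
        exact ⟨zero_le_one, ha.le⟩
      · rw [h1, haE]
        exact ⟨ha0.le, le_rfl⟩
      · have h2 : l = r + 1 := by omega
        rw [h2, hbE]
        exact ⟨hb.le, hab⟩
    refine ⟨h1.1, h1.2, fun w hw1 hw2 => (hdw l (by omega) w hw1 ?_).trans hεe⟩
    have := mul_le_mul_of_nonneg_right hτ.le hq.le
    linarith only [hw2, hv', this]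
  · have h1 := hf3 l hl l' hl'
    have h2 := hf2 l
    have e1 : a * (R * q) = a * R * q := by ring
    rw [e1]
    linarith only [h1, h2, hXq, he64, haaq, hq]
  · have h2 := hf2 l
    have e1 : a * (R * q) = a * R * q := by ring
    rw [e1]
    linarith only [h2, hXq, he64, haaq, hq]
  · have h1 := hf l
    linarith only [h1, hℓ2q, he64, hq]
  · have e1 : a * (R * q) = a * R * q := by ring
    rw [e1]
    linarith only [hℓ3q, he64, hq]
  · -- the exponents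
    rcases Nat.lt_or_ge i (r + 1) with h1 | h1
    · have h2 := hE0 i (by omega)
      have h3 := hL0 i (by omega)
      exact ⟨h2.1, by linarith only [h2.2, h3, hKq]⟩
    · have h2 : i = r + 1 := by omega
      rw [h2, eP_last]
      have h3 := hL0 (r + 1) le_rfl
      exact ⟨by linarith only [b3, b4, hμ], by linarith only [b8, h3, hμ]⟩
  · show 0 ≤ L r v v + μ / 4 ∧ L r v v + μ / 4 + q ≤ 1
    rw [← hUv]
    have h2 : 4 * q ≤ (a * R + b * R + 4) * q := by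
      linarith only [haaq, habq]
    exact ⟨by linarith only [hUv0, hμ], by linarith only [hUvρ, hρ₀, hμ, hqμ, h2, hq]⟩
  · have h1 := (hE0 i (by omega)).2
    have h2 := hf i
    show L i v v + aX r (X * q) i + eP r L (e₀ - μ / 2) v i + q ≤ 1
    linarith only [h1, h2, hK2q, hτq, hq, hK4q, haaq]
  · have h1 := hroom r (by omega)
    rw [haE, hEr r le_rfl, hUv, sub_self, max_self]
    show L r v v + a * (R * q) + 0 + q ≤ 1
    have e1 : a * (R * q) = a * R * q := by ring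
    rw [e1]
    linarith only [h1, hK4q, hτq, hq, hKq]
  · rw [hbE, eP_last]
    show L (r + 1) v v + b * (R * q) + (e₀ - μ / 2) + q ≤ 1
    have e1 : b * (R * q) = b * R * q := by ring
    rw [e1]
    have h2 : b * R * q + q ≤ (a * R + b * R + 4) * q := by
      linarith only [haaq, hq]
    linarith only [b8, hqμ, h2, hμ]
  · -- the raw rows
    rw [hbE] at hQ2
    have e1 : b * (R * q) = b * R * q := by ring
    rw [e1] at hQ2
    have h1 := Rc.raw (by omega) hε (x := L (r + 1) t t - L (r + 1) v v) (y := Q')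
      (by linarith only [hdN.2, hbτ, he, hεq, mul_pos (mul_pos hb hR) hq]) hQ1
      (by linarith only [hdN.1, hK3q, habq, hεe, he64, hq]) (by
        linarith only [hQ2, hK3q, mul_pos (mul_pos hb hτ0) hq, hq])
      (by
        have := hL0 (r + 1) le_rfl
        show L (r + 1) t t - L (r + 1) v v ≤ L (r + 1) t t
        linarith only [this])
    have e2 : L (r + 1) t t - (L (r + 1) t t - L (r + 1) v v) = L (r + 1) v v := by ring
    change RawN S ((range (r + 1)).image c) (c (r + 1))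
      (L (r + 1) t t - (L (r + 1) t t - L (r + 1) v v)) Q' h (2 * ε * q) at h1
    rw [e2] at h1
    exact h1
  · rw [eP_last]
    have h1 := min_le_right (8 * e / 8) (q / 2)
    have h2 : 4 * q ≤ (a * R + b * R + 4) * q := by
      linarith only [haaq, habq]
    linarith only [h1, h2, hqμ, hμ]
  · have h1 := min_le_right (8 * e / 8) (q / 2)
    have h2 : 4 * q ≤ (a * R + b * R + 4) * q := by
      linarith only [haaq, habq]
    show L r v v + μ / 4 + min (8 * e / 8) (q / 2) ≤ ρ₀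
    linarith only [h1, h2, hqμ, hμ, b6]
  · have h1 := min_le_right (8 * e / 8) (q / 2)
    have h2 : 4 * q ≤ (a * R + b * R + 4) * q := by
      linarith only [haaq, habq]
    show π₀ ≤ L (r + 1) v v - min (8 * e / 8) (q / 2)
    linarith only [h1, h2, hqμ, hμ, b7]
  · refine le_min (le_of_eq ?_) (by linarith only [he64, hq])
    ring
  rw [haE, hbE] at hrows
  exact hrows

/-- **The data of a jointly nonfull pair of any radius `R < τ`, base labels at the window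
`t - Tn q`, at a record**: `pairy_rec` with `R`, `τ`, `Tn` free, in a subclass with the same record. -/
theorem stgd_rec {r D : ℕ} (hr : 1 ≤ r) {S : PCl (r + 2)} {al : ℝ} {g₀ : ℝ → ℝ}
    {P : List (Fin (r + 2)) × Fin (r + 2) → ℝ → ℝ → ℝ}
    {θ : ℝ} {P₂ : ℕ → List (Fin (r + 2)) × Fin (r + 2) → ℝ → ℝ → ℝ} {θ₂ Eb e₂ : ℕ → ℝ}
    {c : ℕ → Fin (r + 2)} {Pt : ℝ → ℝ → ℝ} {rt : ℝ → ℝ} {h K₀ g : ℝ} {L T : ℕ → ℝ → ℝ → ℝ}
    {Sl : ℕ → ℝ} {κ : ℕ → Kg} {G : Set ℝ} {S₀ N : ℕ} {A V : ℕ → ℝ} {S₂ N' : ℕ} {V' : ℕ → ℝ}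
    {K' ε q t : ℝ} {S₁ : PCl (r + 2)} (hne₁ : S₁.Ne)
    (hs₁ : ∀ (τ : ℝ) (J : ℕ) (F : Fam (r + 2) J) (A : F.Ω → Prop), S₁.St τ J F A → S.St τ J F A)
    (Rc : RecG S₁ al g₀ P θ P₂ θ₂ Eb e₂ c Pt rt h K₀ g L T Sl κ G S₀ N A V S₂ N' V' K' ε q t)
    (hκ : ∀ l < r, κ l = .one) (ha : 1 < Sl r) (hb : 0 < Sl (r + 1)) (hab : Sl (r + 1) ≤ Sl r)
    (hh1 : h ≤ 1) (hε : 0 < ε) (hK₀ : 0 < K₀)
    (hcu₀ : ∀ w ∈ G, ∃ rd : ℕ → ℝ, (∀ l < r + 1, 0 ≤ rd l) ∧
      Chn S c 0 (r + 1) w w (L r w w) (fun l => L l w w) rd) {e₀ ρ₀ π₀ μ : ℝ} (hμ : 0 < μ)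
    (hρ₀ : ρ₀ + μ ≤ 1) (halt₀ : ∀ w ∈ G, |w - g| ≤ μ → AltC S c r L e₀ ρ₀ π₀ μ w)
    (hnear : ∀ x : ℝ, |x| ≤ K' → |t + x * q - g| ≤ μ)
    (hlab : ∀ k < N', (∃ E : ℝ, E + μ ≤ e₀ ∧
      AlW S₁ c r (c (r + 1)) D (t + V' k * q) (L (r + 1) (t + V' k * q) (t + V' k * q))
        (L r (t + V' k * q) (t + V' k * q)) E 0 (L r (t + V' k * q) (t + V' k * q))) ∧
      ∀ e : ℝ, 0 < e → Bas S₁ (fun J F A => ∃ (V₁ : Type) (z : PtT F → V₁) (z' : LnT F → V₁)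
        (g : V₁ → ℕ → MvPolynomial (Option (Fin (r + 2))) ℝ),
        LbX F c 0 (r + 1) D e (fun i => max 0 (L r (t + V' k * q) (t + V' k * q) -
          L i (t + V' k * q) (t + V' k * q))) (t + V' k * q)
          (fun _ => L r (t + V' k * q) (t + V' k * q))
          (fun l => L l (t + V' k * q) (t + V' k * q)) A z z' g))
    {el dl : ℝ} {k₀ : ℕ} (hel : 0 ≤ el) (hdl : 0 ≤ dl) (hdlb : dl ≤ Sl (r + 1) * Real.log 2)
    (hful : ∀ S' : PCl (r + 2), S'.Ne → SubC S' S → ∀ w₀ : ℝ, 0 < w₀ → w₀ < g →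
      AltE S' ((range (r + 1)).image c) (c (r + 1)) (max D D * max 1 D) e₀ ρ₀ π₀ w₀ →
      ∃ φ : ℝ, Sl (r + 1) * Real.log 2 - dl ≤ φ ∧ ∀ k ≥ k₀, AltAt S ((range (r + 1)).image c)
        ((range r).image c) (c (r + 1)) (max D D * max 1 D) e₀ ρ₀ π₀ (fun w => L (r + 1) w w) g
        φ el k)
    -- the radius and the windows
    {R τ Tn : ℝ} (hR : 0 < R) (hτ : R < τ) (hTn : τ ≤ Tn) (hTn1 : pzD R (Sl (r + 1)) + τ ≤ Tn)
    (hk₀ : (K₀ + τ) * q ≤ (1 / 2) ^ k₀)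
    {M : ℕ} {W : ℕ → ℝ} (hW0 : W 0 = -Tn) (hW1 : W (M + 1) = -τ) (hW2 : W (2 * M + 1 + 1) = 0)
    (hWm : ∀ k, W k ≤ W (k + 1))
    {ms : ℝ} (hms0 : 0 < ms) (hWs : ∀ k, W (k + 1) - W k ≤ ms)
    (hWb : ∀ k ≤ 2 * M + 1 + 1, -Tn ≤ W k ∧ W k ≤ 0)
    (hWy : ∀ y, -τ ≤ y → y ≤ 0 → ∃ k ≤ 2 * M + 1 + 1, |W k - y| ≤ ms)
    (hWin : ∀ k ≤ 2 * M + 1 + 1, ∃ j < N', V' j = W k) (hWx : ∃ j < N', V' j = -(K₀ + 1))
    {X φ kf ℓ e' : ℝ} (hWj : ∀ k ≤ r, ∃ j < N', V' j = jfV r (-τ) X k)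
    -- the numbers
    (hX1 : 2 * (6 * τ) ≤ X) (hX2 : 2 * (Sl r * R) + 2 ≤ X)
    (hX3 : 32 * (r + 1) * φ ≤ X) (hkf1 : 3 ^ r * X ≤ kf)
    (hkf2 : Sl (r + 1) * R + 2 * (r + 1) * φ + 1 ≤ kf) (hℓ1 : kf + τ ≤ ℓ)
    (hℓ2 : 3 ^ r * X + R + 1 ≤ ℓ) (hℓ3 : Sl r * R + R + 1 ≤ ℓ) (hK1 : ℓ + 1 ≤ K')
    (hK2 : τ + 3 ^ r * X ≤ K')
    (hK3 : Sl (r + 1) * τ + Sl (r + 1) * R + 2 ≤ K')
    (hK4 : Sl r * R + τ + 2 ≤ K')
    (hK5 : Tn + K₀ + 1 ≤ K')
    (hφ0 : 0 < φ) (hφ1 : φ ≤ 1 / 8) (hεφ : 2 * ε ≤ φ) (he' : 0 < e') (he1 : e' ≤ φ / 8)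
    (he2 : e' ≤ 1 / 64) (hεe : 128 * ε ≤ e')
    (hbτ : 2 * e' ≤ Sl (r + 1) * (τ - R)) (hams : Sl r * ms ≤ e' / 32)
    (hqμ : (Sl r * R + Sl (r + 1) * R + 4) * q ≤ μ / 4) {pf : ℕ → ℝ} {Nf : ℕ → ℕ → ℝ}
    (hpf : ∀ l < r, L l t t - φ * q ≤ pf l)
    (hNf : ∀ l < r, ∀ j ≤ 1, Nf l j = L l t t + kf * q - (j : ℕ) * t) {δ : ℝ} (hδ0 : 0 < δ)
    (hδ1 : (8 * r + 49) * e' ≤ δ * R / 4) (hδ2 : el * (2 * (K₀ + τ)) ≤ δ * R / 4)
    (hδ3 : dl ≤ δ / 4) (N₀ : ℕ) :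
    ∃ S' : PCl (r + 2), S'.Ne ∧
      (∀ (τ : ℝ) (J : ℕ) (F : Fam (r + 2) J) (A : F.Ω → Prop), S'.St τ J F A → S₁.St τ J F A) ∧
      RecG S' al g₀ P θ P₂ θ₂ Eb e₂ c Pt rt h K₀ g L T Sl κ G S₀ N A V S₂ N' V' K' ε q t ∧
      (∀ i ≤ r, 0 ≤ eP r L (e₀ - μ / 2) (t + -τ * q) i ∧
        L i (t + -τ * q) (t + -τ * q) + eP r L (e₀ - μ / 2) (t + -τ * q) i + 3 * K' * q ≤ 1) ∧
      0 ≤ L r (t + -τ * q) (t + -τ * q) + μ / 4 ∧ L r (t + -τ * q) (t + -τ * q) + μ / 4 < 1 ∧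
      ∃ p₁ p₂ pa₁ pa₂ : ℝ,
      PairE S' (PsQ (LbF ((range (r + 1)).image c) (c (r + 1)) D e₀ ρ₀
          (L (r + 1) (t + -Tn * q) (t + -Tn * q) - e' * q / 16) (t + -Tn * q)) c r D
          (max D D * max 1 D) (t + -Tn * q) (t + -τ * q) t p₁ p₂
          (e₀ - μ / 2) (L r (t + -τ * q) (t + -τ * q) + μ / 4)
          (L (r + 1) (t + -τ * q) (t + -τ * q) - e' * q / 2) pa₁ pa₂ (e₀ - μ / 2)
          (L r t t + μ / 4) (L (r + 1) t t - e' * q / 2) (ℓ * q) (e' * q)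
          (eP r L (e₀ - μ / 2) (t + -τ * q))
          (fun _ => L r (t + -τ * q) (t + -τ * q) + μ / 4)
          (fun i => L i (t + -τ * q) (t + -τ * q))
          (nX r (fun l x => L l x x) (t + -τ * q) (X * q))) c r (max D D * max 1 D)
        ((range (r + 1)).image c) (c (r + 1)) (Sl r) (Sl (r + 1)) R (h * Sl (r + 1)) δ (ℓ * q) N₀
        (t + -τ * q) t q (fun i => L i (t + -τ * q) (t + -τ * q))
        (nX r (fun l x => L l x x) (t + -τ * q) (X * q)) (fun x => L (r + 1) x x) pf Nf (e' * q)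
        (eP r L (e₀ - μ / 2) (t + -τ * q) (r + 1) + e' * q)
        (L r (t + -τ * q) (t + -τ * q) + μ / 4 + e' * q) (L (r + 1) (t + -τ * q) (t + -τ * q))
        (eP r L (e₀ - μ / 2) (t + -τ * q)) (fun _ => L r (t + -τ * q) (t + -τ * q) + μ / 4)
        (t + -Tn * q) (L (r + 1) (t + -Tn * q) (t + -Tn * q)) e₀ ρ₀ (D * max 1 D) := by
  have hq := Rc.q0
  have ht0 := Rc.t0
  have ht1 := Rc.t1
  have htn := abs_le.1 Rc.near
  have hcu₁ : ∀ w ∈ G, ∃ rd : ℕ → ℝ, (∀ l < r + 1, 0 ≤ rd l) ∧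
      Chn S₁ c 0 (r + 1) w w (L r w w) (fun l => L l w w) rd := fun w hw => by
    obtain ⟨rd, h1, h2⟩ := hcu₀ w hw
    exact ⟨rd, h1, h2.sub hs₁⟩
  have halt₁ : ∀ w ∈ G, |w - g| ≤ μ → AltC S₁ c r L e₀ ρ₀ π₀ μ w := fun w hw hw' =>
    altC_sub hs₁ (halt₀ w hw hw')
  have ha0 : 0 < Sl r := by linarith only [ha]
  have hfl : 0 < (⌊Sl (r + 1)⌋₊ : ℝ) + 1 - Sl (r + 1) := by
    have := Nat.lt_floor_add_one (Sl (r + 1))
    linarith only [this]
  have hD0 : 0 < pzD R (Sl (r + 1)) := by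
    unfold pzD
    positivity
  have hwin : ∀ x : ℝ, (∃ j < N', V' j = x) → t + x * q ∈ G := fun x hx => by
    obtain ⟨j, hj, e⟩ := hx
    rw [← e]
    exact Rc.memG.2 j hj
  have halc : ∀ x : ℝ, (∃ j < N', V' j = x) → AlC S₁ c r D L e₀ μ (t + x * q) := fun x hx => by
    obtain ⟨j, hj, e⟩ := hx
    rw [← e]
    exact (hlab j hj).1
  have haa : 0 < Sl r * R := mul_pos ha0 hR
  have hab0 : 0 < Sl (r + 1) * R := mul_pos hb hR
  have hτ0 : 0 < τ := by linarith only [hR, hτ]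
  have hTn0 : 0 < Tn := by linarith only [hτ0, hTn]
  have he : 0 < e' * q := mul_pos he' hq
  have hεq : 0 < ε * q := mul_pos hε hq
  have hK50 : 0 < K' := by linarith only [hK5, hTn0, hK₀]
  have hK5q : (Tn + K₀ + 1) * q ≤ K' * q := mul_le_mul_of_nonneg_right hK5 hq.le
  have hτq : 0 < τ * q := mul_pos hτ0 hq
  have hTnq : 0 < Tn * q := mul_pos hTn0 hq
  have hTτq : τ * q ≤ Tn * q := mul_le_mul_of_nonneg_right hTn hq.le
  have hK₀q : 0 < K₀ * q := mul_pos hK₀ hq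
  have hWK : ∀ k ≤ 2 * M + 1 + 1, |W k| ≤ K' := fun k hk => by
    obtain ⟨h1, h2⟩ := hWb k hk
    rw [abs_of_nonpos h2]
    linarith only [h1, hK5, hK₀]
  have hWG : ∀ k ≤ 2 * M + 1 + 1, t + W k * q ∈ G := fun k hk => hwin _ (hWin k hk)
  have hvG : t + -τ * q ∈ G := by
    rw [← hW1]
    exact hWG _ (by omega)
  have htG : t ∈ G := by
    have h1 := hWG (2 * M + 1 + 1) le_rfl
    rwa [hW2, zero_mul, add_zero] at h1
  have hvK : |(-τ : ℝ)| ≤ K' := by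
    rw [← hW1]
    exact hWK _ (by omega)
  have hDK : D ≤ max D D * max 1 D := by
    calc D = D * 1 := (mul_one D).symm
      _ ≤ D * max 1 D := Nat.mul_le_mul_left D (le_max_left 1 D)
      _ = max D D * max 1 D := by rw [max_self]
  -- the labels at an earlier window
  have hxK : |-(K₀ + 1)| ≤ K' := by
    rw [abs_neg, abs_of_pos (by linarith only [hK₀])]
    linarith only [hK5, hTn0]
  obtain ⟨ph, hph, hAt⟩ := hful S₁ hne₁ hs₁ (t + -(K₀ + 1) * q)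
    (by linarith only [ht0, hK5q, hTnq]) (by linarith only [htn.2, hq]) (by
      obtain ⟨rk, E', b1, b2, b3, b4, b5, b6, b7, b8, b9, b10⟩ := halt₁ _ (hwin _ hWx)
        (hnear _ hxK)
      exact (halc _ hWx).lb b6 hDK hμ le_rfl (by linarith only [b7]))
  -- the scale
  obtain ⟨k, hk, hk1, hk2⟩ := pow_near (mul_pos (by linarith only [hK₀, hτ0] :
    0 < K₀ + τ) hq) hk₀
  -- the natural labels
  have hbms : Sl (r + 1) * ms * q ≤ e' / 32 * q := by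
    have h1 := mul_le_mul_of_nonneg_right hab hms0.le
    exact mul_le_mul_of_nonneg_right (h1.trans hams) hq.le
  have h4q : 4 * q ≤ μ / 4 := by
    have : 4 * q ≤ (Sl r * R + Sl (r + 1) * R + 4) * q := by
      linarith only [mul_pos haa hq, mul_pos hab0 hq]
    exact this.trans hqμ
  have he2q : e' * q ≤ 1 / 64 * q := mul_le_mul_of_nonneg_right he2 hq.le
  have hεeq : 128 * ε * q ≤ e' * q := mul_le_mul_of_nonneg_right hεe hq.le
  obtain ⟨S', c1, c2, R', p₁, p₂, pa₁, pa₂, c4⟩ := pd_cls Rc hcu₁ hμ hρ₀ halt₁ hnear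
    (M₁ := M) (M₂ := 2 * M + 1) (by omega) (fun k _ => hWm k) hWK hWG hab hb.le
    (ms := ms) (e := e' * q) (fun k _ => hWs k) he (by linarith only [he2q, hq])
    (by linarith only [hbms, hεeq]) (by linarith only [he2q, h4q, hq])
    (by rw [hW0]; linarith only [ht0, hK5q, hK₀q]) (by
      rw [hW2, zero_mul, add_zero]
      linarith only [ht1, mul_pos hK50 hq]) (halc _ (hWin 0 (by omega)))
    (halc _ (hWin (M + 1) (by omega))) (halc _ (hWin (2 * M + 1 + 1) le_rfl))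
  rw [hW0, hW1, hW2, zero_mul, add_zero] at c4
  have hlv : ∀ e : ℝ, 0 < e → Bas S' (fun J F A => ∃ (V₁ : Type) (z : PtT F → V₁)
      (z' : LnT F → V₁) (g : V₁ → ℕ → MvPolynomial (Option (Fin (r + 2))) ℝ),
      LbX F c 0 (r + 1) D e (fun i => max 0 (L r (t + -τ * q) (t + -τ * q) -
        L i (t + -τ * q) (t + -τ * q))) (t + -τ * q)
        (fun _ => L r (t + -τ * q) (t + -τ * q))
        (fun l => L l (t + -τ * q) (t + -τ * q)) A z z' g) := fun e he => by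
    obtain ⟨j, hj, hj'⟩ := hWin (M + 1) (by omega)
    have h1 := (hlab j hj).2 e he
    rw [hj', hW1] at h1
    exact Bas.sub c2 h1
  have hcu' : ∀ w ∈ G, ∃ rd : ℕ → ℝ, (∀ l < r + 1, 0 ≤ rd l) ∧
      Chn S' c 0 (r + 1) w w (L r w w) (fun l => L l w w) rd := fun w hw => by
    obtain ⟨rd, h1, h2⟩ := hcu₁ w hw
    exact ⟨rd, h1, h2.sub c2⟩
  have halt' : ∀ w ∈ G, |w - g| ≤ μ → AltC S' c r L e₀ ρ₀ π₀ μ w := fun w hw hw' =>
    altC_sub c2 (halt₁ w hw hw')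
  -- the room
  have hroom : ∀ j ≤ r + 1, L j (t + -τ * q) (t + -τ * q) + 3 * K' * q < 1 := by
    intro j hj
    have Wn := Rc.tg (r + 1) (by omega) (by omega)
    have h1 := Wn.room j hj (t + -τ * q) (by
      rw [add_sub_cancel_left, abs_mul, abs_of_pos hq]
      exact mul_le_mul_of_nonneg_right hvK hq.le)
    have h2 := Wn.Eb0
    linarith only [h1, h2]
  obtain ⟨rk, E', b1, b2, b3, b4, b5, b6, b7, b8, b9, b10⟩ := halt₁ _ hvG (hnear _ hvK)
  have hv0 : 0 ≤ t + -τ * q := by linarith only [ht0, hK5q, hK₀q, hTτq, hq]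
  have hv1 : t + -τ * q ≤ 1 := by linarith only [ht1, hτq, mul_pos hK50 hq]
  have hL0 : ∀ i ≤ r, 0 ≤ L i (t + -τ * q) (t + -τ * q) := fun i hi =>
    hv0.trans (Rc.low_at (by omega) hv0 le_rfl hv1)
  have hUv1 : L r (t + -τ * q) (t + -τ * q) + μ / 4 < 1 := by linarith only [b6, hρ₀, hμ]
  have hEi : ∀ i ≤ r, 0 ≤ eP r L (e₀ - μ / 2) (t + -τ * q) i ∧
      L i (t + -τ * q) (t + -τ * q) + eP r L (e₀ - μ / 2) (t + -τ * q) i + 3 * K' * q ≤ 1 := by
    intro i hi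
    rw [eP_lt L _ _ hi]
    refine ⟨le_max_left _ _, ?_⟩
    have h1 := hroom i (by omega)
    have h2 := hroom r (by omega)
    rcases max_choice 0 (L r (t + -τ * q) (t + -τ * q) -
      L i (t + -τ * q) (t + -τ * q)) with h3 | h3
    · rw [h3]
      linarith only [h1]
    · rw [h3]
      linarith only [h2]
  have hτRq : R * q ≤ τ * q := mul_le_mul_of_nonneg_right hτ.le hq.le
  have hbτq := mul_le_mul_of_nonneg_right hbτ hq.le
  -- the rows
  have hrows := rows_stg (D := D) hr R' hκ rfl rfl ha hb hab hR hτ hh1 hε hcu' hμ hρ₀ halt' hnear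
    (k := k) (ph := ph) (el := el) (dl := dl) (((hAt k hk).sub hs₁).sub c2) hel hdl hdlb hph
    (by linarith only [htn.1, hk1]) (by linarith only [htn.2, hk1, hτRq, hτq])
    (Ψ := PsQ (LbF ((range (r + 1)).image c) (c (r + 1)) D e₀ ρ₀
          (L (r + 1) (t + -Tn * q) (t + -Tn * q) - e' * q / 16) (t + -Tn * q)) c r D
          (max D D * max 1 D) (t + -Tn * q) (t + -τ * q) t p₁ p₂
          (e₀ - μ / 2) (L r (t + -τ * q) (t + -τ * q) + μ / 4)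
          (L (r + 1) (t + -τ * q) (t + -τ * q) - e' * q / 2) pa₁ pa₂ (e₀ - μ / 2)
          (L r t t + μ / 4) (L (r + 1) t t - e' * q / 2) (ℓ * q) (e' * q)
          (eP r L (e₀ - μ / 2) (t + -τ * q))
          (fun _ => L r (t + -τ * q) (t + -τ * q) + μ / 4)
          (fun i => L i (t + -τ * q) (t + -τ * q))
          (nX r (fun l x => L l x x) (t + -τ * q) (X * q))) (e := e' * q) (X := X) (ℓ := ℓ)
    (by
      rintro J F A V C z z' G₁ G₂ cc ⟨g', h1, h2, h3, h4, h5, h6⟩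
      exact ⟨g', h1, h2, h3, h5⟩) hms0 (fun y hy1 hy2 => by
      obtain ⟨k, hk, hk'⟩ := hWy y hy1 (by linarith only [hy2, hτ])
      exact ⟨W k, hWK k hk, hWG k hk, hk'⟩) hvG hX2 hℓ2 hℓ3 hK1 hK2 hK3 hK4 he
    (by linarith only [he2q]) (by linarith only [hεeq, hεq]) (by
      linarith only [hbτq, hεeq, hεq]) hqμ (δ := δ) ?_ N₀
  swap
  · -- the errors
    have h1 := mul_le_mul_of_nonneg_right hδ1 hq.le
    have h2 := mul_le_mul_of_nonneg_right hδ2 hq.le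
    have h3 := mul_le_mul_of_nonneg_right hδ3 (mul_pos hR hq).le
    have h4 := mul_le_mul_of_nonneg_left hk2 hel
    have h5 := mul_le_mul_of_nonneg_right hams hq.le
    have h6 : 0 < δ * R * q := mul_pos (mul_pos hδ0 hR) hq
    linarith only [h1, h2, h3, h4, h5, h6, hbms, hεeq, hεq, he]
  -- the value of the label at `t`
  have hdN := abs_le.1 (Rc.dL2 (l := r + 1) (by omega) hvK (by
    rw [abs_zero]
    exact hK50.le : |(0 : ℝ)| ≤ K'))
  rw [zero_mul, add_zero] at hdN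
  have eN1 : Sl (r + 1) * ((-τ - 0) * q) = -(Sl (r + 1) * τ * q) := by ring
  rw [eN1] at hdN
  have PE := Pool.PSQ78.paire_core (D := D) hr R' hκ (a := Sl r) (b := Sl (r + 1)) (ρ := R)
    (τ := τ) (ta := t) hR hb hτ0 (by linarith only [hτq]) le_rfl hcu'
    (Ψ₀ := LbF ((range (r + 1)).image c) (c (r + 1)) D e₀ ρ₀
      (L (r + 1) (t + -Tn * q) (t + -Tn * q) - e' * q / 16) (t + -Tn * q))
    (Pn := L (r + 1) (t + -Tn * q) (t + -Tn * q)) LbF.hs (fun _ _ _ _ _ _ _ h => h) c4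
    (K := max D D * max 1 D) (e := e' * q) (E := eP r L (e₀ - μ / 2) (t + -τ * q))
    (rd := fun _ => L r (t + -τ * q) (t + -τ * q) + μ / 4) (by
      refine Bas.mono 0 (hlv (e' * q) he) ?_
      rintro J - F A ⟨V₁, z, z', g', h1⟩
      have hJ0 : (0 : ℝ) ≤ J := Nat.cast_nonneg J
      refine ⟨V₁, z, z', g', fun i hi1 hi2 => ?_⟩
      refine (h1 i hi1 hi2).mono (Finset.Subset.refl _) hDK (Nat.floor_le_floor
        (mul_le_mul_of_nonneg_right ?_ hJ0)) (Nat.floor_le_floor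
        (mul_le_mul_of_nonneg_right ?_ hJ0)) le_rfl
      · rw [eP_lt L _ _ (by omega)]
      · show L r (t + -τ * q) (t + -τ * q) + e' * q ≤
          L r (t + -τ * q) (t + -τ * q) + μ / 4 + e' * q
        linarith only [hμ])
    le_rfl (by rw [eP_last]; linarith only [he]) (by
      show L r (t + -τ * q) (t + -τ * q) + μ / 4 ≤
        L r (t + -τ * q) (t + -τ * q) + μ / 4 + e' * q
      linarith only [he]) (by linarith only [he]) (by
      linarith only [hdN.2, hbτq, he, hεq, hεeq]) (fun i hi => by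
      have h1 := hEi i hi.le
      have h2 := hL0 i hi.le
      linarith only [h1.2, h2, mul_pos hK50 hq]) (fun i hi => by
      show 0 ≤ L r (t + -τ * q) (t + -τ * q) + μ / 4
      linarith only [hL0 r le_rfl, hμ]) (by linarith only [he]) (by linarith only [hq])
    (by linarith only [ht0, hK5q, hK₀q, hq]) (by
      have := mul_le_mul_of_nonneg_right hTn1 hq.le
      linarith only [this]) hD0.le htG (X := X) (φ := φ) (kf := kf) (ℓ := ℓ)
    (fun k hk => hwin _ (hWj k hk)) hX1 hX3 hkf1 hkf2 hℓ1 hK1 hK2 (by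
      linarith only [hK4, haa]) hφ0 hφ1 hεφ he (by
      have := mul_le_mul_of_nonneg_right he1 hq.le
      linarith only [this]) (by linarith only [he2q]) hpf hNf hδ0 hrows.1 hrows.2
  exact ⟨S', c1, c2, R', hEi, by linarith only [hL0 r le_rfl, hμ], hUv1, p₁, p₂, pa₁, pa₂, PE⟩

end Pool.PN18
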