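import Pool.Agent.H18.PN.Stg0
import Pool.Agent.H18.PN.Jhi

/-!
# Two labels which differ by a closed polynomial over the chain

`dif_key`: the jets of the first label are few bits given the jets of the second one.
-/

set_option autoImplicit false

namespace Pool.PN18

open Finset Real MvPolynomial
open Pool.Agent.H49.Ent Pool.Agent.H32.Dense Pool.STK Pool.KA Pool.KSAT Pool.K2S Pool.PB Pool.GEN
open Pool.S6C Pool.RCD Pool.LA91 Pool.OWN68 Pool.AJW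
open Pool.GRD (LbP)
open Pool.ALT (Fml DpI)

/-- **Two labels which differ by a closed polynomial over the chain.** -/
theorem dif_key {m : ℕ} {S : PCl m} {C₀ : ℝ} (htm : TmC S C₀)
    {U₀ : Type} {Qu : Qt m U₀} {α γ : ∀ J : ℕ, Fam m J → Type}
    {f : ∀ (J : ℕ) (F : Fam m J), F.Ω → α J F} {y : ∀ (J : ℕ) (F : Fam m J), F.Ω → γ J F} {a : ℝ}
    {I₁ I₂ : Finset (Fin m)} {k κ₂ : Fin m} (hk : k ∈ I₁) {K K' K₁ j : ℕ}
    {v v' v'' E E' R R' p p' P N e e' η δ : ℝ} (he : 0 < e) (hee : 2 * e ≤ e') (hP0 : e' ≤ P)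
    (hP : P ≤ p) (hP' : P ≤ p') (hδ : 0 < δ)
    (hF : F1 S f (vg a) y Qu (qJet m I₁ k j v'' P N) e' η) (K₀ : ℕ) :
    Bas S (fun J F A => ∀ (V V' V'' : Type) (z : PtT F → V) (z' : LnT F → V)
      (G : V → MvPolynomial (Option (Fin m)) ℝ) (x : PtT F → V') (x' : LnT F → V')
      (G' : V' → MvPolynomial (Option (Fin m)) ℝ) (t : PtT F → V'') (t' : LnT F → V'')
      (Hp : V'' → MvPolynomial (Option (Fin m)) ℝ),
      LbOK F I₂ κ₂ K ⌊E * J⌋₊ J ⌊v * J⌋₊ ⌊R * J⌋₊ ⌊(p - e) * J⌋₊ A z z' G →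
      LbOK F I₂ κ₂ K' ⌊E' * J⌋₊ J ⌊v' * J⌋₊ ⌊R' * J⌋₊ ⌊(p' - e) * J⌋₊ A x x' G' →
      (∀ ω, A ω → t (ptr F J ω) = t' (slam F ⌊v'' * J⌋₊ ω)) →
      (∀ b, (Hp b).totalDegree ≤ K₁) → (∀ b, DpI I₁ (Hp b)) →
      (∀ ω, A ω → G (z' (slam F ⌊v * J⌋₊ ω)) =
        G' (x' (slam F ⌊v' * J⌋₊ ω)) + Hp (t' (slam F ⌊v'' * J⌋₊ ω))) →
      ∀ u₀ : F.Ω → U₀, Qu.P K₀ e J F A u₀ →
      ∃ (V₁ : Type) (z₁ : F.Ω → V₁), Cl2 (f J F) (vg a J F) A z₁ ∧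
        CH (Pool.Agent.H49.Ent.cond F.p A True)
          (fun ω => ⌊(2 : ℝ) ^ (N * J) * ojet F κ₂ j (G (z' (slam F ⌊v * J⌋₊ ω))) ω⌋)
          (fun ω => (⌊(2 : ℝ) ^ (N * J) * ojet F κ₂ j (G' (x' (slam F ⌊v' * J⌋₊ ω))) ω⌋,
            (u₀ ω, (z₁ ω, y J F ω)))) ≤ (η + δ) * J) := by
  classical
  obtain ⟨B₁, hB₁, JA, hbig₁⟩ := big_jet m K j N E R
  obtain ⟨B₂, hB₂, JB, hbig₂⟩ := big_jet m K' j N E' R'
  obtain ⟨B, hB⟩ : ∃ B : ℝ, B = max B₁ B₂ + 3 := ⟨_, rfl⟩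
  have hBp : 0 < B := by
    rw [hB]
    have := le_max_left B₁ B₂
    linarith
  obtain ⟨M, hM⟩ := exists_nat_ge B
  obtain ⟨Kb, hKb⟩ : ∃ Kb : ℕ, Kb = K₀ + K₁ + M + 1 := ⟨_, rfl⟩
  have hMK : (M : ℝ) ≤ Kb := by
    rw [hKb]
    push_cast
    linarith [Nat.cast_nonneg (α := ℝ) K₀, Nat.cast_nonneg (α := ℝ) K₁]
  have hl2 : 0 < Real.log 2 := Real.log_pos one_lt_two
  have hl21 : Real.log 2 ≤ 1 := by
    have := Real.log_two_lt_d9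
    linarith
  obtain ⟨J₃, hJ₃⟩ := exists_nat_ge (Real.log 7 / δ)
  obtain ⟨J₄, hJ₄⟩ := exists_nat_ge (1 / e)
  obtain ⟨J₀, hJ₀⟩ : ∃ J₀ : ℕ, J₀ = JA + JB + J₃ + J₄ + 1 := ⟨_, rfl⟩
  refine Bas.mono J₀ ((hF Kb).and (Pool.GRW.tmc_bas htm one_pos)) ?_
  rintro J hJ F A ⟨H, hA, -⟩ V V' V'' z z' G x x' G' t t' Hp hl1 hl2' hcls hdeg hdep heq u₀ hu₀
  have hJ0 : (0 : ℝ) ≤ J := Nat.cast_nonneg J
  have hJ1 : (1 : ℝ) ≤ J := by exact_mod_cast (by omega : 1 ≤ J)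
  have hJ3 : (J₃ : ℝ) ≤ J := by exact_mod_cast (by omega : J₃ ≤ J)
  have hJ4 : (J₄ : ℝ) ≤ J := by exact_mod_cast (by omega : J₄ ≤ J)
  have heJ : 1 ≤ e * J := by
    have h1 : 1 / e ≤ J := hJ₄.trans hJ4
    rw [div_le_iff₀ he] at h1
    linarith
  have f4 : Real.log 7 ≤ δ * J := by
    have : Real.log 7 / δ ≤ J := hJ₃.trans hJ3
    rw [div_le_iff₀ hδ] at this
    linarith
  obtain ⟨oH, hoH⟩ : ∃ oH : F.Ω → ℝ, oH = fun ω =>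
    jet j (Hp (t' (slam F ⌊v'' * J⌋₊ ω))) (bt F ω) (bd F ω) := ⟨_, rfl⟩
  obtain ⟨o₁, ho₁⟩ : ∃ o₁ : F.Ω → ℝ, o₁ = fun ω =>
    ojet F κ₂ j (G (z' (slam F ⌊v * J⌋₊ ω))) ω := ⟨_, rfl⟩
  obtain ⟨o₂, ho₂⟩ : ∃ o₂ : F.Ω → ℝ, o₂ = fun ω =>
    ojet F κ₂ j (G' (x' (slam F ⌊v' * J⌋₊ ω))) ω := ⟨_, rfl⟩
  have hsp : ∀ ω, A ω → o₁ ω = o₂ ω - oH ω := by
    intro ω hω
    rw [ho₁, ho₂, hoH]
    show ojet F κ₂ j (G (z' (slam F ⌊v * J⌋₊ ω))) ω = ojet F κ₂ j (G' (x' (slam F ⌊v' * J⌋₊ ω))) ω -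
      jet j (Hp (t' (slam F ⌊v'' * J⌋₊ ω))) (bt F ω) (bd F ω)
    rw [heq ω hω]
    unfold ojet
    rw [← jet_sub]
    congr 1
    ring
  have hb1 : ∀ ω, A ω → |(2 : ℝ) ^ (N * J) * o₁ ω| ≤ 2 ^ ((B - 3) * J) := by
    intro ω hω
    rw [ho₁]
    refine (hbig₁ J (by omega) F I₂ κ₂ v _ A V z z' G hl1 ω hω).trans ?_
    refine Real.rpow_le_rpow_of_exponent_le (by norm_num) (mul_le_mul_of_nonneg_right ?_ hJ0)
    rw [hB]
    linarith [le_max_left B₁ B₂]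
  have hb2 : ∀ ω, A ω → |(2 : ℝ) ^ (N * J) * o₂ ω| ≤ 2 ^ ((B - 3) * J) := by
    intro ω hω
    rw [ho₂]
    refine (hbig₂ J (by omega) F I₂ κ₂ v' _ A V' x x' G' hl2' ω hω).trans ?_
    refine Real.rpow_le_rpow_of_exponent_le (by norm_num) (mul_le_mul_of_nonneg_right ?_ hJ0)
    rw [hB]
    linarith [le_max_right B₁ B₂]
  obtain ⟨T, hT⟩ : ∃ T : ℝ, T = 2 ^ ((B - 3) * J) := ⟨_, rfl⟩
  have hT1 : 1 ≤ T := by
    rw [hT]
    refine Real.one_le_rpow (by norm_num) (mul_nonneg ?_ hJ0)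
    rw [hB]
    have := le_max_left B₁ B₂
    linarith
  rw [← hT] at hb1 hb2
  have hexp : 8 * T ≤ Real.exp ((Kb : ℕ) * J) := by
    have e1 : (8 : ℝ) = 2 ^ (3 : ℝ) := by norm_num
    have e2 : (2 : ℝ) ^ (3 : ℝ) ≤ 2 ^ (3 * (J : ℝ)) :=
      Real.rpow_le_rpow_of_exponent_le (by norm_num) (by linarith)
    have e3 : 8 * T ≤ 2 ^ (B * J) := by
      calc 8 * T ≤ 2 ^ (3 * (J : ℝ)) * T := mul_le_mul_of_nonneg_right (e1.le.trans e2) (by linarith)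
        _ = 2 ^ (B * J) := by
          rw [hT, ← Real.rpow_add (by norm_num)]
          congr 1
          ring
    refine e3.trans ?_
    rw [← exp_p2]
    refine Real.exp_le_exp.2 ?_
    have e4 : B * J ≤ Kb * J := mul_le_mul_of_nonneg_right (hM.trans hMK) hJ0
    have e5 : B * J * Real.log 2 ≤ B * J * 1 := mul_le_mul_of_nonneg_left hl21 (by positivity)
    linarith
  have flr : ∀ x : ℝ, |((⌊x⌋ : ℤ) : ℝ)| ≤ |x| + 1 := by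
    intro x
    have h4 := Int.floor_le x
    have h5 := Int.lt_floor_add_one x
    rw [abs_le]
    have h6 := neg_abs_le x
    have h7 := le_abs_self x
    constructor <;> linarith
  -- the closed polynomial
  have hHp : ∀ ω, A ω → |eval (bt F ω) (Hp (t' (slam F ⌊v'' * J⌋₊ ω)))| ≤
      1 / 2 ^ ⌊(P - e') * J⌋₊ := by
    intro ω hω
    have a1 := hl2'.pos ω hω
    have a2 := hl1.pos ω hω
    rw [heq ω hω, map_add] at a2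
    have g1 : ⌊(P - e') * J⌋₊ + 1 ≤ ⌊(p' - e) * J⌋₊ := by
      rw [← Nat.floor_add_one (mul_nonneg (by linarith) hJ0)]
      refine Nat.floor_le_floor ?_
      have e1 : (P - e') * J + e * J ≤ (p' - e) * J := by
        rw [← add_mul]
        exact mul_le_mul_of_nonneg_right (by linarith) hJ0
      linarith
    have g2 : ⌊(P - e') * J⌋₊ + 1 ≤ ⌊(p - e) * J⌋₊ := by
      rw [← Nat.floor_add_one (mul_nonneg (by linarith) hJ0)]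
      refine Nat.floor_le_floor ?_
      have e1 : (P - e') * J + e * J ≤ (p - e) * J := by
        rw [← add_mul]
        exact mul_le_mul_of_nonneg_right (by linarith) hJ0
      linarith
    have i1 : (1 : ℝ) / 2 ^ ⌊(p' - e) * J⌋₊ ≤ 1 / 2 ^ (⌊(P - e') * J⌋₊ + 1) :=
      one_div_le_one_div_of_le (by positivity) (pow_le_pow_right₀ (by norm_num) g1)
    have i2 : (1 : ℝ) / 2 ^ ⌊(p - e) * J⌋₊ ≤ 1 / 2 ^ (⌊(P - e') * J⌋₊ + 1) :=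
      one_div_le_one_div_of_le (by positivity) (pow_le_pow_right₀ (by norm_num) g2)
    have i3 : (1 : ℝ) / 2 ^ (⌊(P - e') * J⌋₊ + 1) + 1 / 2 ^ (⌊(P - e') * J⌋₊ + 1) =
        1 / 2 ^ ⌊(P - e') * J⌋₊ := by
      rw [pow_succ]
      field_simp
      norm_num
    obtain ⟨g, hg⟩ : ∃ g, g = eval (bt F ω) (G' (x' (slam F ⌊v' * J⌋₊ ω))) := ⟨_, rfl⟩
    obtain ⟨h, hh⟩ : ∃ h, h = eval (bt F ω) (Hp (t' (slam F ⌊v'' * J⌋₊ ω))) := ⟨_, rfl⟩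
    rw [← hg] at a1 a2
    rw [← hh] at a2 ⊢
    have b1 := abs_le.1 (a1.trans i1)
    have b2 := abs_le.1 (a2.trans i2)
    rw [← i3, abs_le]
    constructor <;> linarith [b1.1, b1.2, b2.1, b2.2]
  obtain ⟨uH, huH⟩ : ∃ uH : F.Ω → ℤ, uH = fun ω => ⌊(2 : ℝ) ^ (N * J) * oH ω⌋ := ⟨_, rfl⟩
  have hoj : ∀ ω, ojet F k j (MvPolynomial.X (some k) - Hp (t' (slam F ⌊v'' * J⌋₊ ω))) ω =
      oH ω := by
    intro ω
    rw [hoH]
    unfold ojet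
    show jet j _ _ _ = jet j (Hp (t' (slam F ⌊v'' * J⌋₊ ω))) (bt F ω) (bd F ω)
    congr 1
    ring
  have hcH : (cnt F.p uH A : ℝ) ≤ Real.exp ((Kb : ℕ) * J) := by
    have h7 := cnt_le_of_abs (p := F.p) (u := uH) (A := A) (B := 2 * T + 1) (by linarith) (by
      intro ω hω
      rw [huH]
      refine (flr _).trans ?_
      have e1 : (2 : ℝ) ^ (N * J) * oH ω = 2 ^ (N * J) * o₂ ω - 2 ^ (N * J) * o₁ ω := by
        rw [hsp ω hω]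
        ring
      rw [e1]
      have e2 := abs_sub (2 ^ (N * (J : ℝ)) * o₂ ω) (2 ^ (N * (J : ℝ)) * o₁ ω)
      linarith [hb1 ω hω, hb2 ω hω])
    linarith
  have hPH : (qJet m I₁ k j v'' P N).P Kb e' J F A uH := by
    refine ⟨hcH, V'', t, t', fun x => MvPolynomial.X (some k) - Hp x,
      ⟨fun x => ?_, fun x b b' hb hb' => ?_, hcls, fun ω hω => ?_⟩, fun ω _ => ?_⟩
    · refine (totalDegree_sub (MvPolynomial.X (some k)) (Hp x)).trans (max_le ?_ ?_)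
      · rw [totalDegree_X]
        omega
      · exact (hdeg x).trans (by omega)
    · rw [map_sub, map_sub, eval_X, eval_X, hb' k hk, hdep x b b' hb hb']
    · rw [map_sub, eval_X]
      have e1 : F.x ω k - (bt F ω (some k) - eval (bt F ω) (Hp (t' (slam F ⌊v'' * J⌋₊ ω)))) =
          eval (bt F ω) (Hp (t' (slam F ⌊v'' * J⌋₊ ω))) := by
        show F.x ω k - (F.x ω k - _) = _
        ring
      rw [e1]
      exact hHp ω hω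
    · rw [huH]
      show _ = ⌊(2 : ℝ) ^ (N * J) * ojet F k j (MvPolynomial.X (some k) - Hp _) ω⌋
      rw [hoj]
  obtain ⟨V₁, z₁, hz₁, hCH⟩ := H u₀ uH (Qu.mono (by omega) (by linarith) hu₀) hPH
  refine ⟨V₁, z₁, hz₁, ?_⟩
  have hcl := isLaw_cond F.isLaw hA
  have h0 := hcl.nonneg
  obtain ⟨X, hX⟩ : ∃ X : F.Ω → ℤ, X = fun ω => ⌊(2 : ℝ) ^ (N * J) * o₁ ω⌋ := ⟨_, rfl⟩
  obtain ⟨Y, hY⟩ : ∃ Y : F.Ω → ℤ, Y = fun ω => ⌊(2 : ℝ) ^ (N * J) * o₂ ω⌋ := ⟨_, rfl⟩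
  have hXe : (fun ω => ⌊(2 : ℝ) ^ (N * J) * ojet F κ₂ j (G (z' (slam F ⌊v * J⌋₊ ω))) ω⌋) = X := by
    rw [hX, ho₁]
  have hYe : (fun ω => (⌊(2 : ℝ) ^ (N * J) * ojet F κ₂ j (G' (x' (slam F ⌊v' * J⌋₊ ω))) ω⌋,
      (u₀ ω, (z₁ ω, y J F ω)))) = fun ω => (Y ω, (u₀ ω, (z₁ ω, y J F ω))) := by
    rw [hY, ho₂]
  rw [hXe, hYe]
  have key := Pool.OWN83.CH_int hcl X (fun ω => (uH ω, (Y ω, (u₀ ω, (z₁ ω, y J F ω)))))
    (fun x => (x.2.1 : ℝ) - (x.1 : ℝ)) (D := 3) (by norm_num) (by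
      intro ω hω
      have hAω := of_cond_pos hω
      have e1 : (2 : ℝ) ^ (N * J) * o₁ ω = 2 ^ (N * J) * o₂ ω - 2 ^ (N * J) * oH ω := by
        rw [hsp ω hAω]
        ring
      rw [hX, hY, huH]
      show |((⌊(2 : ℝ) ^ (N * J) * o₁ ω⌋ : ℤ) : ℝ) - (((⌊(2 : ℝ) ^ (N * J) * o₂ ω⌋ : ℤ) : ℝ) -
        ((⌊(2 : ℝ) ^ (N * J) * oH ω⌋ : ℤ) : ℝ))| ≤ 3
      have h4 := Int.floor_le ((2 : ℝ) ^ (N * J) * o₁ ω)
      have h5 := Int.lt_floor_add_one ((2 : ℝ) ^ (N * J) * o₁ ω)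
      have h6 := Int.floor_le ((2 : ℝ) ^ (N * J) * oH ω)
      have h7 := Int.lt_floor_add_one ((2 : ℝ) ^ (N * J) * oH ω)
      have h8 := Int.floor_le ((2 : ℝ) ^ (N * J) * o₂ ω)
      have h9 := Int.lt_floor_add_one ((2 : ℝ) ^ (N * J) * o₂ ω)
      rw [abs_le]
      constructor <;> linarith)
  have h7 : Real.log (2 * 3 + 1) = Real.log 7 := by norm_num
  rw [h7] at key
  have h9 := CH_le_add h0 X uH (fun ω => (Y ω, (u₀ ω, (z₁ ω, y J F ω))))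
  have h10 : CH (Pool.Agent.H49.Ent.cond F.p A True) uH
      (fun ω => (Y ω, (u₀ ω, (z₁ ω, y J F ω)))) ≤ η * J :=
    (CH_mono_cond h0 fun ω ω' _ _ hh => (Prod.ext_iff.mp hh).2).trans hCH
  have h11 : (η + δ) * J = η * J + δ * J := by ring
  linarith

end Pool.PN18
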