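import Pool.Agent.H18.PN.Stg8
import Pool.Agent.H78.PSQ.Psl

/-!
# The natural jets of the next coordinate

`jn_nat`: the jets of the coordinate `c (r + 1)` over all labels of the early window `vn`, with the digits
which are natural at `w`, if the natural labels of the window `w` over base labels of `vn` exist.
-/

set_option autoImplicit false

namespace Pool.PN18

open Finset Real MvPolynomial
open Pool.Agent.H49.Ent Pool.Agent.H32.Dense Pool.STK Pool.KA Pool.KSAT Pool.K2S Pool.PB Pool.GEN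
open Pool.S6C Pool.RCD Pool.LA91 Pool.OWN68 Pool.AJW Pool.AJX Pool.CHT
open Pool.ALT (Fml NzQ NzF NzL NzO LbF nzG floorw wz wz_slam sbu sbu_deg sbu_dep DpI DpI.sub)

/-- The pairs whose second label is a natural label. -/
def NzP {m : ℕ} (Ψ₀ : Fml m) (c : ℕ → Fin m) (r D : ℕ) (vn w pa₁ pa₂ ea ua pa : ℝ) : Fm2 m :=
  fun J F A V _ z z' _ G₂ _ =>
    NzF Ψ₀ c r (c (r + 1)) D D D vn w pa₁ pa₂ ea ua pa J F A V z z' G₂

/-- **The second label** is a label of the earlier window plus a closed polynomial over the chain. -/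
theorem nzp_dcp {m : ℕ} {Ψ₀ : Fml m} {c : ℕ → Fin m} {r D : ℕ}
    {vn w pa₁ pa₂ ea ua pa e E₀ R₀ P₀ P₀' : ℝ}
    (hΨ : ∀ (J : ℕ) (F : Fam m J) (A : F.Ω → Prop) (V : Type) (z : PtT F → V) (z' : LnT F → V)
      (G : V → MvPolynomial (Option (Fin m)) ℝ), Ψ₀ J F A V z z' G →
      LbOK F ((range (r + 1)).image c) (c (r + 1)) D ⌊E₀ * J⌋₊ J ⌊vn * J⌋₊ ⌊R₀ * J⌋₊
        ⌊P₀' * J⌋₊ A z z' G) (hP : P₀ - e ≤ P₀') (hvn : vn ≤ w) (hv : w ≤ 1) :
    Dcp2 (NzP Ψ₀ c r D vn w pa₁ pa₂ ea ua pa)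
      ((range r).image c) ((range (r + 1)).image c) (c (r + 1)) (D * max 1 D) vn w E₀ R₀ P₀ e := by
  rintro J F A V C z z' G₁ G₂ cc h4
  obtain ⟨V₀, V₁, V₂, z₀, z₀', G₀, P₁, z₁, z₁', G₁', P₂, z₂, z₂', H, f, a1, a2⟩ := h4
  have hJ0 : (0 : ℝ) ≤ J := Nat.cast_nonneg J
  have hl := hΨ J F A V₀ z₀ z₀' G₀ a1
  obtain ⟨f1, f2⟩ := floorw hvn hv J
  refine ⟨V₀, z₀, z₀', G₀, fun y => sbu (c r) (H (f y).2.2) (G₁' (f y).2.1 - G₀ (f y).1),
    hl.mono (Finset.Subset.refl _) ?_ le_rfl le_rfl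
      (Nat.floor_le_floor (mul_le_mul_of_nonneg_right hP hJ0)), fun y => ?_, fun y => ?_,
    fun ω hω => ?_⟩
  · calc D = D * 1 := (mul_one D).symm
      _ ≤ D * max 1 D := Nat.mul_le_mul_left D (le_max_left 1 D)
  · refine sbu_deg (c r) (a2.l2.deg _) ?_
    exact (totalDegree_sub _ _).trans (max_le (a2.l1.deg _) (hl.deg _))
  · exact sbu_dep (DpI.sub (a2.l1.dep _) (hl.dep _)) (a2.l2.dep _)
  · dsimp only
    rw [a2.pol]
    unfold nzG
    rw [a2.cod, wz_slam z₀' f1 f2]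

/-- **The natural jets of the next coordinate**: its jets over all labels of the early window `vn`,
digits natural at `w`. -/
theorem jn_nat {m r D K : ℕ} {S : PCl m} {C₀ : ℝ} (htm : TmC S C₀) (hr : 1 ≤ r) {c : ℕ → Fin m}
    {sn : ℕ → ℝ → ℝ} {G : Set ℝ} {v vn w X φ lam kf e₁ : ℝ} {v₀ vn₀ : ℕ → ℝ} {U₀ : Type}
    {Q : Qt m U₀} (H : JfN r sn G v w X φ lam kf v₀ K) (Hn : JfN r sn G vn w X φ lam kf vn₀ K)
    (hch : ChG S c (r + 1) sn G)
    (hA : JetA S (fun J F => ptr F J) (vg w) (fun _ F => F.T) Q c 0 r v (fun i => sn i v)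
      (nX r sn v X) e₁)
    (hAn : JetA S (fun J F => ptr F J) (vg w) (fun _ F => F.T) Q c 0 r vn (fun i => sn i vn)
      (nX r sn vn X) e₁) {e : ℝ} (he0 : 0 < e) (he1 : e ≤ e₁) (he : e ≤ φ / 8)
    (he2 : 2 * e ≤ e₁) (he3 : 2 * e ≤ φ / 8)
    -- the base labels and the natural labels at `w`
    {Ψ₀ : Fml m} {En Rn Pn Pn' pa₁ pa₂ ea ua pa : ℝ}
    (hΨl : ∀ (J : ℕ) (F : Fam m J) (A : F.Ω → Prop) (V : Type) (z : PtT F → V)
      (z' : LnT F → V) (G : V → MvPolynomial (Option (Fin m)) ℝ), Ψ₀ J F A V z z' G →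
      LbOK F ((range (r + 1)).image c) (c (r + 1)) D ⌊En * J⌋₊ J ⌊vn * J⌋₊ ⌊Rn * J⌋₊
        ⌊Pn' * J⌋₊ A z z' G) (hPn : Pn - e ≤ Pn')
    (hex : Bas S (fun J F A => ∃ (V : Type) (z : PtT F → V) (z' : LnT F → V)
      (G : V → MvPolynomial (Option (Fin m)) ℝ),
      NzF Ψ₀ c r (c (r + 1)) D D D vn w pa₁ pa₂ ea ua pa J F A V z z' G))
    {j : ℕ} {pt lr h : ℝ} (hh : 0 < h) (hpt : pt - e ≤ pa) (hP0 : 2 * e ≤ min Pn pt)
    (h1 : pt + 3 * φ + (w - v) ≤ min Pn pt + X)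
    (heh : e ≤ h / (128 * ((r + 1) * (j + 1))))
    (h3 : sn r w + 2 * φ + (w - v) ≤ min (sn r w) (sn r vn) + X) (hlr : 0 < lr)
    (h4 : sn r vn + lr + 2 * φ + j * (w - vn) ≤ sn r w) (h5 : lr + 3 * φ ≤ X)
    (h6 : pt - j * (w - vn) + φ ≤ Pn + lr) :
    F1 S (fun J F => ptr F J) (vg w) (fun _ F => F.T) Q
      (qJet m ((range (r + 1)).image c) (c (r + 1)) j vn Pn (pt - j * w)) e h := by
  obtain ⟨uw, rw, hrw, hcw⟩ := hch.ch w H.wG
  have hw0 : 0 ≤ w := hcw.w0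
  have hw1 : w < 1 := hcw.u0
  have hnn : (1 : ℝ) ≤ (r + 1) * (j + 1) := by
    have e1 : (0 : ℝ) ≤ r := Nat.cast_nonneg r
    have e2 : (0 : ℝ) ≤ j := Nat.cast_nonneg j
    nlinarith
  have hh4 : 0 < h / 4 := by positivity
  have heh1 : e ≤ h / 4 / 8 := by
    refine heh.trans ?_
    rw [div_div]
    exact div_le_div_of_nonneg_left hh.le (by norm_num) (by linarith)
  have hk : c 0 ∈ (range r).image c := mem_image_of_mem _ (mem_range.2 hr)
  have hlb : ∀ (J : ℕ) (F : Fam m J) (A : F.Ω → Prop) (V C : Type) (z : PtT F → V) (z' : LnT F → V)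
      (G₁ G₂ : V → MvPolynomial (Option (Fin m)) ℝ) (cc : LnT F → C),
      NzP Ψ₀ c r D vn w pa₁ pa₂ ea ua pa J F A V C z z' G₁ G₂ cc →
      LbOK F ((range (r + 1)).image c) (c (r + 1)) (max D D * max 1 D) ⌊ea * J⌋₊ J ⌊w * J⌋₊
        ⌊ua * J⌋₊ ⌊(pt - e) * J⌋₊ A z z' G₂ := by
    intro J F A V C z z' G₁ G₂ cc hN
    exact (NzF.lb hN).mono (Finset.Subset.refl _) le_rfl le_rfl le_rfl
      (Nat.floor_le_floor (mul_le_mul_of_nonneg_right hpt (Nat.cast_nonneg J)))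
  have hG : Fw2 S (fun J F => ptr F J) w (fun _ F => F.T) Q (NzP Ψ₀ c r D vn w pa₁ pa₂ ea ua pa)
      (τ := fun _ _ _ _ => ℤ)
      (fun J F _ _ z' _ G₂ _ ω => ⌊(2 : ℝ) ^ ((pt - j * w) * J) * ojet F (c (r + 1)) j
        (G₂ (z' (slam F ⌊w * J⌋₊ ω))) ω⌋) e (h / 4) := by
    have hs := fw2_natX (f := fun J F => ptr F J) (y := fun _ F => F.T) (Qu := Q) (a := w)
      (Ψ := (NzP Ψ₀ c r D vn w pa₁ pa₂ ea ua pa).swap) (I := (range (r + 1)).image c)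
      (κ := c (r + 1)) (K := max D D * max 1 D) (j := j) (w := w) (p := pt) (e := e)
      (δ := h / 4) (Er := ea) (Rr := ua) htm hw0 hw1 hh4 heh1
      (fun J F A V C z z' G₁ G₂ cc hN => hlb J F A V C z z' G₂ G₁ cc hN)
    intro K₀
    refine Bas.mono 0 (hs K₀) ?_
    rintro J - F A HH V C z z' G₁ G₂ cc hN u₀ hu₀
    exact HH V C z z' G₂ G₁ cc hN u₀ hu₀
  have hF := H.selfw htm hch hA hk (j := j) (P := min Pn pt) (N := pt - j * w) (e := 2 * e)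
    (h := h / 4) (by
      have e1 : pt - j * w + j * w + 3 * φ + (w - v) = pt + 3 * φ + (w - v) := by ring
      rw [e1]
      exact h1) (by linarith) he2 he3 hh4
  have hJE := jex_of_fw (K := max D D * max 1 D) htm hk he0 le_rfl hP0 (min_le_left _ _)
    (min_le_right _ _) hh4 hF hlb (nzp_dcp hΨl hPn Hn.vw.le hw1.le) (by
      refine Bas.mono 0 hex ?_
      rintro J - F A ⟨V, z, z', G₂, hN⟩
      exact ⟨V, Unit, z, z', G₂, G₂, fun _ => (), hN⟩) hG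
  have key := H.jn Hn htm hch hA hAn (j := j) (k := c (r + 1)) h3 he0 he1 he hh4 (by
    refine heh.trans (le_of_eq ?_)
    rw [div_div]
    congr 1
    ring) hlr h4 h5 (by linarith) hJE
  exact key.mono le_rfl (by linarith)

end Pool.PN18
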