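import Pool.Agent.H80.PN.Stgd
import Pool.Agent.H18.PN.Nrp

/-!
# The data of a pair at a record, with the digits of the profile

`RecG.fwx_n`, `paire_core_n`, `stgd_rec_n`: as `RecG.fwx`, `paire_core`, `stgd_rec`, where the near jets of the
chain at the window `t` have at least the digits `nX l - j v` of the window `v`.
-/

set_option autoImplicit false

namespace Pool.PKG

open Finset Real
open Pool.Agent.H49.Ent Pool.Agent.H32.Dense Pool.STK Pool.KA Pool.KSAT Pool.K2S Pool.PB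
open Pool.GEN Pool.S6C Pool.STAT Pool.CHT Pool.GRW Pool.ONE Pool.STA
open Pool.LA91 Pool.AJW Pool.NPZ
open Pool.RCD (vg)
open Pool.AJX (LbX FwX)

section

variable {m : ℕ} {S : PCl m} {al : ℝ} {g₀ : ℝ → ℝ} {P : List (Fin m) × Fin m → ℝ → ℝ → ℝ}
  {θ : ℝ} {P₂ : ℕ → List (Fin m) × Fin m → ℝ → ℝ → ℝ} {θ₂ Eb e₂ : ℕ → ℝ}
  {c : ℕ → Fin m} {Pt : ℝ → ℝ → ℝ} {rt : ℝ → ℝ} {h K₀ g : ℝ} {L T : ℕ → ℝ → ℝ → ℝ}
  {Sl : ℕ → ℝ} {κ : ℕ → Kg} {G : Set ℝ} {S₀ N : ℕ} {A V : ℕ → ℝ} {S₂ N' : ℕ} {V' : ℕ → ℝ}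
  {K' ε q t : ℝ} {S₁ : PCl m} {r K : ℕ} {vv X φ lam kf : ℝ}

/-- **The context of the chain** at the window `t + vv q` given the near jets at the window `t`, with the
digits of the profile. -/
theorem RecG.fwx_n {C₀ : ℝ} (htm : TmC S₁ C₀)
    (R : RecG S al g₀ P θ P₂ θ₂ Eb e₂ c Pt rt h K₀ g L T Sl κ G S₀ N A V S₂ N' V' K' ε q t)
    (hκ : ∀ l < r, κ l = .one) (hrm : r ≤ m)
    (hch : ChG S₁ c (r + 1) (fun l x => L l x x) G)
    (U : JfU r K vv X φ lam kf) (hGt : t ∈ G)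
    (hG : ∀ k ≤ r, t + jfV r vv X k * q ∈ G) (hK : -vv + 3 ^ r * X ≤ K') (hlam : lam ≤ K')
    (hε : 2 * ε ≤ φ) {pf : ℕ → ℝ} (hpf : ∀ l < r, L l t t - φ * q ≤ pf l) {E rd : ℕ → ℝ}
    (hE : ∀ i < r, E i ≤ 1) (hrd : ∀ i < r, 0 ≤ rd i) {Kc : ℕ} {e δ : ℝ} (hδ : 0 < δ)
    (he : 0 < e) (hle : e ≤ φ * q / 8) {Nf : ℕ → ℕ → ℝ}
    (hNf : ∀ l < r, ∀ j ≤ 1, nX r (fun l x => L l x x) (t + vv * q) (X * q) l -
      (j : ℕ) * (t + vv * q) ≤ Nf l j) :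
    FwX S₁ (fun J F => ptr F J) (vg t) (fun _ F => F.T)
      (qJets m c 0 r 1 (fun _ _ => t) (fun l _ => pf l) Nf) c 0 r Kc E (t + vv * q) rd
      (fun i => L i (t + vv * q) (t + vv * q))
      (Pool.AJW.ctx c 0 r Kc (t + vv * q) (lam * q) (nX r (fun l x => L l x x) (t + vv * q) (X * q)))
      e δ := by
  have HF := Pool.PN18.far_of_n hch (R.jf hκ hrm U hGt hG hK hlam hε) hpf hNf
  have ht1 : t ≤ 1 := by
    have h1 := HF.wl
    have h2 := HF.l1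
    linarith
  exact far_ctxX htm HF le_rfl ht1 (fun J F => ⟨id, fun ω => rfl⟩) (fun J F => by
    refine ⟨fun t => (t, fun _ => 0, fun _ => 0), fun ω => ?_⟩
    simp only [Finset.range_zero, Finset.image_empty, Finset.notMem_empty, if_false])
    (fun i _ hi => hE i hi) (fun i _ hi => hrd i hi) hδ le_rfl he hle

end

end Pool.PKG

namespace Pool.PN18

open Finset Real MvPolynomial
open Pool.Agent.H49.Ent Pool.Agent.H32.Dense Pool.STK Pool.KA Pool.KSAT Pool.K2S Pool.PB Pool.GEN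
open Pool.S6C Pool.RCD Pool.LA91 Pool.OWN68 Pool.AJW Pool.AJX Pool.CHT Pool.PKG Pool.ALT
open Pool.PSQ78
open Pool.V0F (LbU)
open Pool.CR99 (PairE)

/-- **The data of a jointly nonfull pair of any radius from its rows**, with the digits of the profile: any family `Ψ₀` of the base labels
of the last coordinate, the last natural window is `ta`. -/
theorem paire_core_n {r D K : ℕ} (hr : 1 ≤ r) {S : PCl (r + 2)} {al : ℝ} {g₀ : ℝ → ℝ}
    {P : List (Fin (r + 2)) × Fin (r + 2) → ℝ → ℝ → ℝ}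
    {θ : ℝ} {P₂ : ℕ → List (Fin (r + 2)) × Fin (r + 2) → ℝ → ℝ → ℝ} {θ₂ Eb e₂ : ℕ → ℝ}
    {c : ℕ → Fin (r + 2)} {Pt : ℝ → ℝ → ℝ} {rt : ℝ → ℝ} {h K₀ g : ℝ} {L T : ℕ → ℝ → ℝ → ℝ}
    {Sl : ℕ → ℝ} {κ : ℕ → Kg} {G : Set ℝ} {S₀ N : ℕ} {A V : ℕ → ℝ} {S₂ N' : ℕ} {V' : ℕ → ℝ}
    {K' ε q t : ℝ}
    (R : RecG S al g₀ P θ P₂ θ₂ Eb e₂ c Pt rt h K₀ g L T Sl κ G S₀ N A V S₂ N' V' K' ε q t)
    (hκ : ∀ l < r, κ l = .one) {a b ρ τ ta : ℝ} (hρ0 : 0 < ρ) (hb : 0 < b) (hτ0 : 0 < τ)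
    (hta1 : t + -τ * q ≤ ta) (hta2 : ta ≤ t)
    (hcu : ∀ w ∈ G, ∃ rd : ℕ → ℝ, (∀ l < r + 1, 0 ≤ rd l) ∧
      Chn S c 0 (r + 1) w w (L r w w) (fun l => L l w w) rd)
    -- the base labels of the last coordinate
    {Ψ₀ : Fml (r + 2)} {vn En Rn Pn Pn' : ℝ}
    (hΨs : ∀ (J : ℕ) (F : Fam (r + 2) J) (A B : F.Ω → Prop) (V : Type)
      (z : PtT F → V) (z' : LnT F → V) (G : V → MvPolynomial (Option (Fin (r + 2))) ℝ), Sub B A →
      Ψ₀ J F A V z z' G → Ψ₀ J F B V z z' G)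
    (hΨl : ∀ (J : ℕ) (F : Fam (r + 2) J) (A : F.Ω → Prop) (V : Type) (z : PtT F → V)
      (z' : LnT F → V) (G : V → MvPolynomial (Option (Fin (r + 2))) ℝ), Ψ₀ J F A V z z' G →
      LbOK F ((range (r + 1)).image c) (c (r + 1)) D ⌊En * J⌋₊ J ⌊vn * J⌋₊ ⌊Rn * J⌋₊
        ⌊Pn' * J⌋₊ A z z' G)
    -- the natural labels
    {p₁ p₂ pa₁ pa₂ eN uN pN ea ua pa e : ℝ} {E rd : ℕ → ℝ}
    (hNz : Bas S (fun J F A => ∃ (V : Type) (z : PtT F → V) (z' : LnT F → V)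
        (G : V → MvPolynomial (Option (Fin (r + 2))) ℝ),
        NzQ Ψ₀ c r (c (r + 1)) D D D D vn (t + -τ * q) p₁ p₂ eN uN pN ta pa₁ pa₂ ea ua pa
          J F A V z z' G))
    (hLx : Bas S (fun J F A => ∃ (V₁ : Type) (z : PtT F → V₁)
      (z' : LnT F → V₁) (g : V₁ → ℕ → MvPolynomial (Option (Fin (r + 2))) ℝ),
      LbX F c 0 (r + 1) K e E (t + -τ * q) rd
        (fun l => L l (t + -τ * q) (t + -τ * q)) A z z' g))
    (hK : max D D * max 1 D ≤ K) (hE : eN ≤ E (r + 1) + e) (hR : uN ≤ rd (r + 1) + e)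
    (hp : L (r + 1) (t + -τ * q) (t + -τ * q) - e ≤ pN)
    (hpa : L (r + 1) (t + -τ * q) (t + -τ * q) + b * (ρ * q) ≤ pa) (hE1 : ∀ i < r, E i ≤ 1)
    (hrd0 : ∀ i < r, 0 ≤ rd i) (hPn : Pn - e ≤ Pn') (hPn1 : L (r + 1) vn vn - q ≤ Pn)
    -- the windows
    (hvn0 : 0 ≤ vn) (hvn : vn + pzD ρ b * q ≤ t + -τ * q) (hpzD : 0 ≤ pzD ρ b) (htG : t ∈ G)
    {X φ kf ℓ : ℝ} (hXj : ∀ k ≤ r, t + jfV r (-τ) X k * q ∈ G)
    -- the numbers
    (hX1 : 2 * (6 * τ) ≤ X) (hX3 : 32 * (r + 1) * φ ≤ X)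
    (hkf1 : 3 ^ r * X ≤ kf) (hkf2 : b * ρ + 2 * (r + 1) * φ + 1 ≤ kf) (hℓ1 : kf + τ ≤ ℓ)
    (hK1 : ℓ + 1 ≤ K') (hK2 : τ + 3 ^ r * X ≤ K') (hK4 : τ + 2 ≤ K')
    (hφ0 : 0 < φ) (hφ1 : φ ≤ 1 / 8) (hεφ : 2 * ε ≤ φ) (he : 0 < e) (heφ : e ≤ φ * q / 8)
    (he64 : e ≤ q / 64) {pf : ℕ → ℝ} {Nf : ℕ → ℕ → ℝ}
    (hpf : ∀ l < r, L l t t - φ * q ≤ pf l)
    (hX4 : τ + b * ρ + 2 * (r + 1) * φ + 1 ≤ X)
    (hNf : ∀ l < r, ∀ j ≤ 1, nX r (fun l x => L l x x) (t + -τ * q) (X * q) l -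
      (j : ℕ) * (t + -τ * q) ≤ Nf l j) {δ h' : ℝ} (hδ0 : 0 < δ)
    {N₀ : ℕ}
    (rw₁ : Rw2 S (PsQ Ψ₀ c r D K vn (t + -τ * q) ta p₁ p₂ eN uN pN pa₁ pa₂ ea ua pa (ℓ * q) e E rd
        (fun i => L i (t + -τ * q) (t + -τ * q))
        (nX r (fun l x => L l x x) (t + -τ * q) (X * q))) (c r) (c (r + 1)) (t + -τ * q)
      (L r (t + -τ * q) (t + -τ * q)) (L (r + 1) (t + -τ * q) (t + -τ * q)) a b (ρ * q) h'
      (δ * (ρ * q)) N₀)
    (rw₂ : Rw2 S (Fm2.swap (PsQ Ψ₀ c r D K vn (t + -τ * q) ta p₁ p₂ eN uN pN pa₁ pa₂ ea ua pa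
        (ℓ * q) e E rd (fun i => L i (t + -τ * q) (t + -τ * q))
        (nX r (fun l x => L l x x) (t + -τ * q) (X * q)))) (c (r + 1)) (c r) (t + -τ * q)
      (L (r + 1) (t + -τ * q) (t + -τ * q)) (L r (t + -τ * q) (t + -τ * q)) b a (ρ * q) h'
      (δ * (ρ * q)) N₀) :
    PairE S (PsQ Ψ₀ c r D K vn (t + -τ * q) ta p₁ p₂ eN uN pN pa₁ pa₂ ea ua pa (ℓ * q) e E rd
        (fun i => L i (t + -τ * q) (t + -τ * q))
        (nX r (fun l x => L l x x) (t + -τ * q) (X * q))) c r K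
      ((range (r + 1)).image c) (c (r + 1)) a b ρ h' δ (ℓ * q) N₀ (t + -τ * q) t q
      (fun i => L i (t + -τ * q) (t + -τ * q))
      (nX r (fun l x => L l x x) (t + -τ * q) (X * q)) (fun x => L (r + 1) x x) pf Nf e
      (E (r + 1) + e) (rd (r + 1) + e) (L (r + 1) (t + -τ * q) (t + -τ * q)) E rd
      vn Pn En Rn (D * max 1 D) := by
  have hq := R.q0
  have ht0 := R.t0
  have ht1 := R.t1
  have htm := R.tmc
  have hpos := R.pos
  have hr0 : (0 : ℝ) ≤ r := Nat.cast_nonneg r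
  have h3X : X ≤ 3 ^ r * X := by
    have h1 : (1 : ℝ) ≤ 3 ^ r := one_le_pow₀ (by norm_num)
    exact le_mul_of_one_le_left (by linarith only [hX1, hτ0]) h1
  have habm : 0 < b * ρ := mul_pos hb hρ0
  have hX0 : 0 < X := by linarith only [hX1, hτ0]
  have hφq : 0 < φ * q := mul_pos hφ0 hq
  have hK0 : 0 < K' := by linarith only [hK4, hτ0]
  have hKq : 0 < K' * q := mul_pos hK0 hq
  have hτq : 0 < τ * q := mul_pos hτ0 hq
  have haq : 0 < ρ * q := mul_pos hρ0 hq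
  obtain ⟨v, hv⟩ : ∃ v, v = t + -τ * q := ⟨_, rfl⟩
  have hv' : v = t - τ * q := by rw [hv]; ring
  have hchG : ChG S c (r + 1) (fun l x => L l x x) G := Pool.LA91.ChG.mk fun w hw => by
      obtain ⟨rd, h1, h2⟩ := hcu w hw
      exact ⟨_, rd, h1, h2⟩
  have hU : Pool.AJW.JfU r 0 (-τ) X φ ℓ kf := ⟨by linarith only [hτ0], hφ0, by
      push_cast
      linarith only [hX1], hX3, hkf1, by linarith only [hℓ1]⟩
  have hK2' : -(-τ) + 3 ^ r * X ≤ K' := by linarith only [hK2]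
  have hctx := R.fwx_n htm hκ (by omega) hchG (K := 0) (vv := -τ) (X := X) (φ := φ) (lam := ℓ)
    (kf := kf) hU htG hXj hK2' (by linarith only [hK1]) hεφ hpf
    (E := E) (rd := rd) hE1 hrd0 (Kc := K) (mul_pos hδ0 haq) he heφ hNf
  have hJf := R.jf hκ (by omega) hU htG hXj hK2' (by linarith only [hK1]) hεφ
  have hfl : ∀ i < r, L i t t ≤ L i (t + -τ * q) (t + -τ * q) + τ * q + φ * q := fun i hi => by
    have h1 := (abs_le.1 (hJf.fl i hi)).2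
    linarith only [h1]
  rw [← hv] at hctx hNz hLx hvn hp hpa hta1 rw₁ rw₂ hNf hfl ⊢
  have hK1q : (ℓ + 1) * q ≤ K' * q := mul_le_mul_of_nonneg_right hK1 hq.le
  have hK4q : (τ + 2) * q ≤ K' * q := mul_le_mul_of_nonneg_right hK4 hq.le
  have habq : 0 < b * ρ * q := mul_pos habm hq
  have hvt : v ≤ t := by linarith only [hv', hτq]
  have hv0 : 0 ≤ v := by linarith only [hv', ht0, hK4q, hq]
  have hvq : q ≤ v := by linarith only [hv', ht0, hK4q, hq]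
  have ht1' : t ≤ 1 := by linarith only [ht1, hKq]
  have hv1 : v ≤ 1 := hvt.trans ht1'
  have hNlow : v ≤ L (r + 1) v v := R.low_at (by omega) hv0 le_rfl hv1
  have hvnv : vn ≤ v := by
    have := mul_nonneg hpzD hq.le
    linarith only [hvn, this]
  have hℓ1q : (kf + τ) * q ≤ ℓ * q := mul_le_mul_of_nonneg_right hℓ1 hq.le
  have hkf2q : (b * ρ + 2 * (r + 1) * φ + 1) * q ≤ kf * q :=
    mul_le_mul_of_nonneg_right hkf2 hq.le
  have hφqq : φ * q ≤ 1 / 8 * q := mul_le_mul_of_nonneg_right hφ1 hq.le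
  have hX4q : (τ + b * ρ + 2 * (r + 1) * φ + 1) * q ≤ X * q := mul_le_mul_of_nonneg_right hX4 hq.le
  have hXkq : X * q ≤ kf * q := mul_le_mul_of_nonneg_right (h3X.trans hkf1) hq.le
  have hδ' : 0 < δ * (ρ * q) := mul_pos hδ0 haq
  obtain ⟨rdt, hrt1, hrt2⟩ := hcu t htG
  refine ⟨psq_psl hΨs, psq_ex hLx hNz hK hE hR hp, psq_ctx2 (by omega) hvt ht1' hctx, rw₁, rw₂,
    ?_, psq_dcp hΨl hPn hvnv hv1, hvn0, hvn, ?_, ?_, hPn1⟩
  · -- the value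
    refine psq_valN2 htm hpos (fun J F A V z z' G h => ⟨(hΨl J F A V z z' G h).deg,
      (hΨl J F A V z z' G h).dep, (hΨl J F A V z z' G h).cls⟩) hvnv hta1 hta2 ht1' hr
      (s := L (r + 1) v v + b * (ρ * q)) hpa (u₁ := L r t t) (σ := φ * q) (k := (X - τ - φ) * q)
      (pm := L (r + 1) v v - e) (so := fun l => L l t t) (rdc := rdt)
      (hrt2.take (by omega) (by omega)) hφq ?_ ?_ hpf (fun i hi => ?_) hp ?_ ?_ ?_ heφ hδ'
    · have e1 : 2 * ((r : ℝ) + 1) * (φ * q) = 2 * (r + 1) * φ * q := by ring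
      rw [e1]
      linarith only [hX4q, habq, hq, hφqq]
    · linarith only [ht1, hℓ1q, hK1q, hτq, hq, hXkq, hφq]
    · have h1 := hNf i hi 0 (by norm_num)
      have h2 := aX_ge (r := r) (mul_pos hX0 hq).le i
      have h3 := hfl i hi
      unfold nX at h1
      push_cast at h1
      linarith only [h1, h2, h3]
    · have := mul_pos hb haq
      linarith only [hpa, this, he]
    · linarith only [hNlow, hvq, he64, hφqq, hq]
    · have e1 : 2 * ((r : ℝ) + 1) * (φ * q) = 2 * (r + 1) * φ * q := by ring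
      have e2 : b * (ρ * q) = b * ρ * q := by ring
      rw [e1, e2]
      linarith only [hX4q, he64, hq, hφqq]
  · show L (r + 1) v v ≤ L (r + 1) v v + q
    linarith only [hq]
  · show L (r + 1) v v - q ≤ L (r + 1) v v
    linarith only [hq]

/-- **The data of a jointly nonfull pair of any radius `R < τ`, base labels at the window
`t - Tn q`, at a record**: `pairy_rec` with `R`, `τ`, `Tn` free, in a subclass with the same record. -/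
theorem stgd_rec_n {r D : ℕ} (hr : 1 ≤ r) {S : PCl (r + 2)} {al : ℝ} {g₀ : ℝ → ℝ}
    {P : List (Fin (r + 2)) × Fin (r + 2) → ℝ → ℝ → ℝ}
    {θ : ℝ} {P₂ : ℕ → List (Fin (r + 2)) × Fin (r + 2) → ℝ → ℝ → ℝ} {θ₂ Eb e₂ : ℕ → ℝ}
    {c : ℕ → Fin (r + 2)} {Pt : ℝ → ℝ → ℝ} {rt : ℝ → ℝ} {h K₀ g : ℝ} {L T : ℕ → ℝ → ℝ → ℝ}
    {Sl : ℕ → ℝ} {κ : ℕ → Kg} {G : Set ℝ} {S₀ N : ℕ} {A V : ℕ → ℝ} {S₂ N' : ℕ} {V' : ℕ → ℝ}
    {K' ε q t : ℝ} {S₁ : PCl (r + 2)} (hne₁ : S₁.Ne)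
    (hs₁ : ∀ (τ : ℝ) (J : ℕ) (F : Fam (r + 2) J) (A : F.Ω → Prop), S₁.St τ J F A → S.St τ J F A)
    (Rc : RecG S₁ al g₀ P θ P₂ θ₂ Eb e₂ c Pt rt h K₀ g L T Sl κ G S₀ N A V S₂ N' V' K' ε q t)
    (hκ : ∀ l < r, κ l = .one) (ha : 1 < Sl r) (hb : 0 < Sl (r + 1)) (hab : Sl (r + 1) ≤ Sl r)
    (hh1 : h ≤ 1) (hε : 0 < ε) (hK₀ : 0 < K₀)
    (hcu₀ : ∀ w ∈ G, ∃ rd : ℕ → ℝ, (∀ l < r + 1, 0 ≤ rd l) ∧
      Chn S c 0 (r + 1) w w (L r w w) (fun l => L l w w) rd) {e₀ ρ₀ π₀ μ : ℝ} (hμ : 0 < μ)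
    (hρ₀ : ρ₀ + μ ≤ 1) (halt₀ : ∀ w ∈ G, |w - g| ≤ μ → AltC S c r L e₀ ρ₀ π₀ μ w)
    (hnear : ∀ x : ℝ, |x| ≤ K' → |t + x * q - g| ≤ μ)
    (hlab : ∀ k < N', (∃ E : ℝ, E + μ ≤ e₀ ∧
      AlW S₁ c r (c (r + 1)) D (t + V' k * q) (L (r + 1) (t + V' k * q) (t + V' k * q))
        (L r (t + V' k * q) (t + V' k * q)) E 0 (L r (t + V' k * q) (t + V' k * q))) ∧
      ∀ e : ℝ, 0 < e → Bas S₁ (fun J F A => ∃ (V₁ : Type) (z : PtT F → V₁) (z' : LnT F → V₁)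
        (g : V₁ → ℕ → MvPolynomial (Option (Fin (r + 2))) ℝ),
        LbX F c 0 (r + 1) D e (fun i => max 0 (L r (t + V' k * q) (t + V' k * q) -
          L i (t + V' k * q) (t + V' k * q))) (t + V' k * q)
          (fun _ => L r (t + V' k * q) (t + V' k * q))
          (fun l => L l (t + V' k * q) (t + V' k * q)) A z z' g))
    {el dl : ℝ} {k₀ : ℕ} (hel : 0 ≤ el) (hdl : 0 ≤ dl) (hdlb : dl ≤ Sl (r + 1) * Real.log 2)
    (hful : ∀ S' : PCl (r + 2), S'.Ne → SubC S' S → ∀ w₀ : ℝ, 0 < w₀ → w₀ < g →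
      AltE S' ((range (r + 1)).image c) (c (r + 1)) (max D D * max 1 D) e₀ ρ₀ π₀ w₀ →
      ∃ φ : ℝ, Sl (r + 1) * Real.log 2 - dl ≤ φ ∧ ∀ k ≥ k₀, AltAt S ((range (r + 1)).image c)
        ((range r).image c) (c (r + 1)) (max D D * max 1 D) e₀ ρ₀ π₀ (fun w => L (r + 1) w w) g
        φ el k)
    -- the radius and the windows
    {R τ Tn : ℝ} (hR : 0 < R) (hτ : R < τ) (hTn : τ ≤ Tn) (hTn1 : pzD R (Sl (r + 1)) + τ ≤ Tn)
    (hk₀ : (K₀ + τ) * q ≤ (1 / 2) ^ k₀)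
    {M : ℕ} {W : ℕ → ℝ} (hW0 : W 0 = -Tn) (hW1 : W (M + 1) = -τ) (hW2 : W (2 * M + 1 + 1) = 0)
    (hWm : ∀ k, W k ≤ W (k + 1))
    {ms : ℝ} (hms0 : 0 < ms) (hWs : ∀ k, W (k + 1) - W k ≤ ms)
    (hWb : ∀ k ≤ 2 * M + 1 + 1, -Tn ≤ W k ∧ W k ≤ 0)
    (hWy : ∀ y, -τ ≤ y → y ≤ 0 → ∃ k ≤ 2 * M + 1 + 1, |W k - y| ≤ ms)
    (hWin : ∀ k ≤ 2 * M + 1 + 1, ∃ j < N', V' j = W k) (hWx : ∃ j < N', V' j = -(K₀ + 1))
    {X φ kf ℓ e' : ℝ} (hWj : ∀ k ≤ r, ∃ j < N', V' j = jfV r (-τ) X k)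
    -- the numbers
    (hX1 : 2 * (6 * τ) ≤ X) (hX2 : 2 * (Sl r * R) + 2 ≤ X)
    (hX3 : 32 * (r + 1) * φ ≤ X) (hkf1 : 3 ^ r * X ≤ kf)
    (hkf2 : Sl (r + 1) * R + 2 * (r + 1) * φ + 1 ≤ kf) (hℓ1 : kf + τ ≤ ℓ)
    (hℓ2 : 3 ^ r * X + R + 1 ≤ ℓ) (hℓ3 : Sl r * R + R + 1 ≤ ℓ) (hK1 : ℓ + 1 ≤ K')
    (hK2 : τ + 3 ^ r * X ≤ K')
    (hK3 : Sl (r + 1) * τ + Sl (r + 1) * R + 2 ≤ K')
    (hK4 : Sl r * R + τ + 2 ≤ K')
    (hK5 : Tn + K₀ + 1 ≤ K')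
    (hφ0 : 0 < φ) (hφ1 : φ ≤ 1 / 8) (hεφ : 2 * ε ≤ φ) (he' : 0 < e') (he1 : e' ≤ φ / 8)
    (he2 : e' ≤ 1 / 64) (hεe : 128 * ε ≤ e')
    (hbτ : 2 * e' ≤ Sl (r + 1) * (τ - R)) (hams : Sl r * ms ≤ e' / 32)
    (hqμ : (Sl r * R + Sl (r + 1) * R + 4) * q ≤ μ / 4) {pf : ℕ → ℝ} {Nf : ℕ → ℕ → ℝ}
    (hpf : ∀ l < r, L l t t - φ * q ≤ pf l)
    (hX4 : τ + Sl (r + 1) * R + 2 * (r + 1) * φ + 1 ≤ X)
    (hNf : ∀ l < r, ∀ j ≤ 1, nX r (fun l x => L l x x) (t + -τ * q) (X * q) l -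
      (j : ℕ) * (t + -τ * q) ≤ Nf l j) {δ : ℝ} (hδ0 : 0 < δ)
    (hδ1 : (8 * r + 49) * e' ≤ δ * R / 4) (hδ2 : el * (2 * (K₀ + τ)) ≤ δ * R / 4)
    (hδ3 : dl ≤ δ / 4) (N₀ : ℕ) :
    ∃ S' : PCl (r + 2), S'.Ne ∧
      (∀ (τ : ℝ) (J : ℕ) (F : Fam (r + 2) J) (A : F.Ω → Prop), S'.St τ J F A → S₁.St τ J F A) ∧
      RecG S' al g₀ P θ P₂ θ₂ Eb e₂ c Pt rt h K₀ g L T Sl κ G S₀ N A V S₂ N' V' K' ε q t ∧
      (∀ i ≤ r, 0 ≤ eP r L (e₀ - μ / 2) (t + -τ * q) i ∧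
        L i (t + -τ * q) (t + -τ * q) + eP r L (e₀ - μ / 2) (t + -τ * q) i + 3 * K' * q ≤ 1) ∧
      0 ≤ L r (t + -τ * q) (t + -τ * q) + μ / 4 ∧ L r (t + -τ * q) (t + -τ * q) + μ / 4 < 1 ∧
      ∃ p₁ p₂ pa₁ pa₂ : ℝ,
      PairE S' (PsQ (LbF ((range (r + 1)).image c) (c (r + 1)) D e₀ ρ₀
          (L (r + 1) (t + -Tn * q) (t + -Tn * q) - e' * q / 16) (t + -Tn * q)) c r D
          (max D D * max 1 D) (t + -Tn * q) (t + -τ * q) t p₁ p₂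
          (e₀ - μ / 2) (L r (t + -τ * q) (t + -τ * q) + μ / 4)
          (L (r + 1) (t + -τ * q) (t + -τ * q) - e' * q / 2) pa₁ pa₂ (e₀ - μ / 2)
          (L r t t + μ / 4) (L (r + 1) t t - e' * q / 2) (ℓ * q) (e' * q)
          (eP r L (e₀ - μ / 2) (t + -τ * q))
          (fun _ => L r (t + -τ * q) (t + -τ * q) + μ / 4)
          (fun i => L i (t + -τ * q) (t + -τ * q))
          (nX r (fun l x => L l x x) (t + -τ * q) (X * q))) c r (max D D * max 1 D)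
        ((range (r + 1)).image c) (c (r + 1)) (Sl r) (Sl (r + 1)) R (h * Sl (r + 1)) δ (ℓ * q) N₀
        (t + -τ * q) t q (fun i => L i (t + -τ * q) (t + -τ * q))
        (nX r (fun l x => L l x x) (t + -τ * q) (X * q)) (fun x => L (r + 1) x x) pf Nf (e' * q)
        (eP r L (e₀ - μ / 2) (t + -τ * q) (r + 1) + e' * q)
        (L r (t + -τ * q) (t + -τ * q) + μ / 4 + e' * q) (L (r + 1) (t + -τ * q) (t + -τ * q))
        (eP r L (e₀ - μ / 2) (t + -τ * q)) (fun _ => L r (t + -τ * q) (t + -τ * q) + μ / 4)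
        (t + -Tn * q) (L (r + 1) (t + -Tn * q) (t + -Tn * q)) e₀ ρ₀ (D * max 1 D) := by
  have hq := Rc.q0
  have ht0 := Rc.t0
  have ht1 := Rc.t1
  have htn := abs_le.1 Rc.near
  have hcu₁ : ∀ w ∈ G, ∃ rd : ℕ → ℝ, (∀ l < r + 1, 0 ≤ rd l) ∧
      Chn S₁ c 0 (r + 1) w w (L r w w) (fun l => L l w w) rd := fun w hw => by
    obtain ⟨rd, h1, h2⟩ := hcu₀ w hw
    exact ⟨rd, h1, h2.sub hs₁⟩
  have halt₁ : ∀ w ∈ G, |w - g| ≤ μ → AltC S₁ c r L e₀ ρ₀ π₀ μ w := fun w hw hw' =>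
    altC_sub hs₁ (halt₀ w hw hw')
  have ha0 : 0 < Sl r := by linarith only [ha]
  have hfl : 0 < (⌊Sl (r + 1)⌋₊ : ℝ) + 1 - Sl (r + 1) := by
    have := Nat.lt_floor_add_one (Sl (r + 1))
    linarith only [this]
  have hD0 : 0 < pzD R (Sl (r + 1)) := by
    unfold pzD
    positivity
  have hwin : ∀ x : ℝ, (∃ j < N', V' j = x) → t + x * q ∈ G := fun x hx => by
    obtain ⟨j, hj, e⟩ := hx
    rw [← e]
    exact Rc.memG.2 j hj
  have halc : ∀ x : ℝ, (∃ j < N', V' j = x) → AlC S₁ c r D L e₀ μ (t + x * q) := fun x hx => by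
    obtain ⟨j, hj, e⟩ := hx
    rw [← e]
    exact (hlab j hj).1
  have haa : 0 < Sl r * R := mul_pos ha0 hR
  have hab0 : 0 < Sl (r + 1) * R := mul_pos hb hR
  have hτ0 : 0 < τ := by linarith only [hR, hτ]
  have hTn0 : 0 < Tn := by linarith only [hτ0, hTn]
  have he : 0 < e' * q := mul_pos he' hq
  have hεq : 0 < ε * q := mul_pos hε hq
  have hK50 : 0 < K' := by linarith only [hK5, hTn0, hK₀]
  have hK5q : (Tn + K₀ + 1) * q ≤ K' * q := mul_le_mul_of_nonneg_right hK5 hq.le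
  have hτq : 0 < τ * q := mul_pos hτ0 hq
  have hTnq : 0 < Tn * q := mul_pos hTn0 hq
  have hTτq : τ * q ≤ Tn * q := mul_le_mul_of_nonneg_right hTn hq.le
  have hK₀q : 0 < K₀ * q := mul_pos hK₀ hq
  have hWK : ∀ k ≤ 2 * M + 1 + 1, |W k| ≤ K' := fun k hk => by
    obtain ⟨h1, h2⟩ := hWb k hk
    rw [abs_of_nonpos h2]
    linarith only [h1, hK5, hK₀]
  have hWG : ∀ k ≤ 2 * M + 1 + 1, t + W k * q ∈ G := fun k hk => hwin _ (hWin k hk)
  have hvG : t + -τ * q ∈ G := by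
    rw [← hW1]
    exact hWG _ (by omega)
  have htG : t ∈ G := by
    have h1 := hWG (2 * M + 1 + 1) le_rfl
    rwa [hW2, zero_mul, add_zero] at h1
  have hvK : |(-τ : ℝ)| ≤ K' := by
    rw [← hW1]
    exact hWK _ (by omega)
  have hDK : D ≤ max D D * max 1 D := by
    calc D = D * 1 := (mul_one D).symm
      _ ≤ D * max 1 D := Nat.mul_le_mul_left D (le_max_left 1 D)
      _ = max D D * max 1 D := by rw [max_self]
  -- the labels at an earlier window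
  have hxK : |-(K₀ + 1)| ≤ K' := by
    rw [abs_neg, abs_of_pos (by linarith only [hK₀])]
    linarith only [hK5, hTn0]
  obtain ⟨ph, hph, hAt⟩ := hful S₁ hne₁ hs₁ (t + -(K₀ + 1) * q)
    (by linarith only [ht0, hK5q, hTnq]) (by linarith only [htn.2, hq]) (by
      obtain ⟨rk, E', b1, b2, b3, b4, b5, b6, b7, b8, b9, b10⟩ := halt₁ _ (hwin _ hWx)
        (hnear _ hxK)
      exact (halc _ hWx).lb b6 hDK hμ le_rfl (by linarith only [b7]))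
  -- the scale
  obtain ⟨k, hk, hk1, hk2⟩ := pow_near (mul_pos (by linarith only [hK₀, hτ0] :
    0 < K₀ + τ) hq) hk₀
  -- the natural labels
  have hbms : Sl (r + 1) * ms * q ≤ e' / 32 * q := by
    have h1 := mul_le_mul_of_nonneg_right hab hms0.le
    exact mul_le_mul_of_nonneg_right (h1.trans hams) hq.le
  have h4q : 4 * q ≤ μ / 4 := by
    have : 4 * q ≤ (Sl r * R + Sl (r + 1) * R + 4) * q := by
      linarith only [mul_pos haa hq, mul_pos hab0 hq]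
    exact this.trans hqμ
  have he2q : e' * q ≤ 1 / 64 * q := mul_le_mul_of_nonneg_right he2 hq.le
  have hεeq : 128 * ε * q ≤ e' * q := mul_le_mul_of_nonneg_right hεe hq.le
  obtain ⟨S', c1, c2, R', p₁, p₂, pa₁, pa₂, c4⟩ := pd_cls Rc hcu₁ hμ hρ₀ halt₁ hnear
    (M₁ := M) (M₂ := 2 * M + 1) (by omega) (fun k _ => hWm k) hWK hWG hab hb.le
    (ms := ms) (e := e' * q) (fun k _ => hWs k) he (by linarith only [he2q, hq])
    (by linarith only [hbms, hεeq]) (by linarith only [he2q, h4q, hq])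
    (by rw [hW0]; linarith only [ht0, hK5q, hK₀q]) (by
      rw [hW2, zero_mul, add_zero]
      linarith only [ht1, mul_pos hK50 hq]) (halc _ (hWin 0 (by omega)))
    (halc _ (hWin (M + 1) (by omega))) (halc _ (hWin (2 * M + 1 + 1) le_rfl))
  rw [hW0, hW1, hW2, zero_mul, add_zero] at c4
  have hlv : ∀ e : ℝ, 0 < e → Bas S' (fun J F A => ∃ (V₁ : Type) (z : PtT F → V₁)
      (z' : LnT F → V₁) (g : V₁ → ℕ → MvPolynomial (Option (Fin (r + 2))) ℝ),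
      LbX F c 0 (r + 1) D e (fun i => max 0 (L r (t + -τ * q) (t + -τ * q) -
        L i (t + -τ * q) (t + -τ * q))) (t + -τ * q)
        (fun _ => L r (t + -τ * q) (t + -τ * q))
        (fun l => L l (t + -τ * q) (t + -τ * q)) A z z' g) := fun e he => by
    obtain ⟨j, hj, hj'⟩ := hWin (M + 1) (by omega)
    have h1 := (hlab j hj).2 e he
    rw [hj', hW1] at h1
    exact Bas.sub c2 h1
  have hcu' : ∀ w ∈ G, ∃ rd : ℕ → ℝ, (∀ l < r + 1, 0 ≤ rd l) ∧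
      Chn S' c 0 (r + 1) w w (L r w w) (fun l => L l w w) rd := fun w hw => by
    obtain ⟨rd, h1, h2⟩ := hcu₁ w hw
    exact ⟨rd, h1, h2.sub c2⟩
  have halt' : ∀ w ∈ G, |w - g| ≤ μ → AltC S' c r L e₀ ρ₀ π₀ μ w := fun w hw hw' =>
    altC_sub c2 (halt₁ w hw hw')
  -- the room
  have hroom : ∀ j ≤ r + 1, L j (t + -τ * q) (t + -τ * q) + 3 * K' * q < 1 := by
    intro j hj
    have Wn := Rc.tg (r + 1) (by omega) (by omega)
    have h1 := Wn.room j hj (t + -τ * q) (by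
      rw [add_sub_cancel_left, abs_mul, abs_of_pos hq]
      exact mul_le_mul_of_nonneg_right hvK hq.le)
    have h2 := Wn.Eb0
    linarith only [h1, h2]
  obtain ⟨rk, E', b1, b2, b3, b4, b5, b6, b7, b8, b9, b10⟩ := halt₁ _ hvG (hnear _ hvK)
  have hv0 : 0 ≤ t + -τ * q := by linarith only [ht0, hK5q, hK₀q, hTτq, hq]
  have hv1 : t + -τ * q ≤ 1 := by linarith only [ht1, hτq, mul_pos hK50 hq]
  have hL0 : ∀ i ≤ r, 0 ≤ L i (t + -τ * q) (t + -τ * q) := fun i hi =>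
    hv0.trans (Rc.low_at (by omega) hv0 le_rfl hv1)
  have hUv1 : L r (t + -τ * q) (t + -τ * q) + μ / 4 < 1 := by linarith only [b6, hρ₀, hμ]
  have hEi : ∀ i ≤ r, 0 ≤ eP r L (e₀ - μ / 2) (t + -τ * q) i ∧
      L i (t + -τ * q) (t + -τ * q) + eP r L (e₀ - μ / 2) (t + -τ * q) i + 3 * K' * q ≤ 1 := by
    intro i hi
    rw [eP_lt L _ _ hi]
    refine ⟨le_max_left _ _, ?_⟩
    have h1 := hroom i (by omega)
    have h2 := hroom r (by omega)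
    rcases max_choice 0 (L r (t + -τ * q) (t + -τ * q) -
      L i (t + -τ * q) (t + -τ * q)) with h3 | h3
    · rw [h3]
      linarith only [h1]
    · rw [h3]
      linarith only [h2]
  have hτRq : R * q ≤ τ * q := mul_le_mul_of_nonneg_right hτ.le hq.le
  have hbτq := mul_le_mul_of_nonneg_right hbτ hq.le
  -- the rows
  have hrows := rows_stg (D := D) hr R' hκ rfl rfl ha hb hab hR hτ hh1 hε hcu' hμ hρ₀ halt' hnear
    (k := k) (ph := ph) (el := el) (dl := dl) (((hAt k hk).sub hs₁).sub c2) hel hdl hdlb hph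
    (by linarith only [htn.1, hk1]) (by linarith only [htn.2, hk1, hτRq, hτq])
    (Ψ := PsQ (LbF ((range (r + 1)).image c) (c (r + 1)) D e₀ ρ₀
          (L (r + 1) (t + -Tn * q) (t + -Tn * q) - e' * q / 16) (t + -Tn * q)) c r D
          (max D D * max 1 D) (t + -Tn * q) (t + -τ * q) t p₁ p₂
          (e₀ - μ / 2) (L r (t + -τ * q) (t + -τ * q) + μ / 4)
          (L (r + 1) (t + -τ * q) (t + -τ * q) - e' * q / 2) pa₁ pa₂ (e₀ - μ / 2)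
          (L r t t + μ / 4) (L (r + 1) t t - e' * q / 2) (ℓ * q) (e' * q)
          (eP r L (e₀ - μ / 2) (t + -τ * q))
          (fun _ => L r (t + -τ * q) (t + -τ * q) + μ / 4)
          (fun i => L i (t + -τ * q) (t + -τ * q))
          (nX r (fun l x => L l x x) (t + -τ * q) (X * q))) (e := e' * q) (X := X) (ℓ := ℓ)
    (by
      rintro J F A V C z z' G₁ G₂ cc ⟨g', h1, h2, h3, h4, h5, h6⟩
      exact ⟨g', h1, h2, h3, h5⟩) hms0 (fun y hy1 hy2 => by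
      obtain ⟨k, hk, hk'⟩ := hWy y hy1 (by linarith only [hy2, hτ])
      exact ⟨W k, hWK k hk, hWG k hk, hk'⟩) hvG hX2 hℓ2 hℓ3 hK1 hK2 hK3 hK4 he
    (by linarith only [he2q]) (by linarith only [hεeq, hεq]) (by
      linarith only [hbτq, hεeq, hεq]) hqμ (δ := δ) ?_ N₀
  swap
  · -- the errors
    have h1 := mul_le_mul_of_nonneg_right hδ1 hq.le
    have h2 := mul_le_mul_of_nonneg_right hδ2 hq.le
    have h3 := mul_le_mul_of_nonneg_right hδ3 (mul_pos hR hq).le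
    have h4 := mul_le_mul_of_nonneg_left hk2 hel
    have h5 := mul_le_mul_of_nonneg_right hams hq.le
    have h6 : 0 < δ * R * q := mul_pos (mul_pos hδ0 hR) hq
    linarith only [h1, h2, h3, h4, h5, h6, hbms, hεeq, hεq, he]
  -- the value of the label at `t`
  have hdN := abs_le.1 (Rc.dL2 (l := r + 1) (by omega) hvK (by
    rw [abs_zero]
    exact hK50.le : |(0 : ℝ)| ≤ K'))
  rw [zero_mul, add_zero] at hdN
  have eN1 : Sl (r + 1) * ((-τ - 0) * q) = -(Sl (r + 1) * τ * q) := by ring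
  rw [eN1] at hdN
  have PE := paire_core_n (D := D) hr R' hκ (a := Sl r) (b := Sl (r + 1)) (ρ := R)
    (τ := τ) (ta := t) hR hb hτ0 (by linarith only [hτq]) le_rfl hcu'
    (Ψ₀ := LbF ((range (r + 1)).image c) (c (r + 1)) D e₀ ρ₀
      (L (r + 1) (t + -Tn * q) (t + -Tn * q) - e' * q / 16) (t + -Tn * q))
    (Pn := L (r + 1) (t + -Tn * q) (t + -Tn * q)) LbF.hs (fun _ _ _ _ _ _ _ h => h) c4
    (K := max D D * max 1 D) (e := e' * q) (E := eP r L (e₀ - μ / 2) (t + -τ * q))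
    (rd := fun _ => L r (t + -τ * q) (t + -τ * q) + μ / 4) (by
      refine Bas.mono 0 (hlv (e' * q) he) ?_
      rintro J - F A ⟨V₁, z, z', g', h1⟩
      have hJ0 : (0 : ℝ) ≤ J := Nat.cast_nonneg J
      refine ⟨V₁, z, z', g', fun i hi1 hi2 => ?_⟩
      refine (h1 i hi1 hi2).mono (Finset.Subset.refl _) hDK (Nat.floor_le_floor
        (mul_le_mul_of_nonneg_right ?_ hJ0)) (Nat.floor_le_floor
        (mul_le_mul_of_nonneg_right ?_ hJ0)) le_rfl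
      · rw [eP_lt L _ _ (by omega)]
      · show L r (t + -τ * q) (t + -τ * q) + e' * q ≤
          L r (t + -τ * q) (t + -τ * q) + μ / 4 + e' * q
        linarith only [hμ])
    le_rfl (by rw [eP_last]; linarith only [he]) (by
      show L r (t + -τ * q) (t + -τ * q) + μ / 4 ≤
        L r (t + -τ * q) (t + -τ * q) + μ / 4 + e' * q
      linarith only [he]) (by linarith only [he]) (by
      linarith only [hdN.2, hbτq, he, hεq, hεeq]) (fun i hi => by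
      have h1 := hEi i hi.le
      have h2 := hL0 i hi.le
      linarith only [h1.2, h2, mul_pos hK50 hq]) (fun i hi => by
      show 0 ≤ L r (t + -τ * q) (t + -τ * q) + μ / 4
      linarith only [hL0 r le_rfl, hμ]) (by linarith only [he]) (by linarith only [hq])
    (by linarith only [ht0, hK5q, hK₀q, hq]) (by
      have := mul_le_mul_of_nonneg_right hTn1 hq.le
      linarith only [this]) hD0.le htG (X := X) (φ := φ) (kf := kf) (ℓ := ℓ)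
    (fun k hk => hwin _ (hWj k hk)) hX1 hX3 hkf1 hkf2 hℓ1 hK1 hK2 (by
      linarith only [hK4, haa]) hφ0 hφ1 hεφ he (by
      have := mul_le_mul_of_nonneg_right he1 hq.le
      linarith only [this]) (by linarith only [he2q]) hpf hX4 hNf hδ0 hrows.1 hrows.2
  exact ⟨S', c1, c2, R', hEi, by linarith only [hL0 r le_rfl, hμ], hUv1, p₁, p₂, pa₁, pa₂, PE⟩

end Pool.PN18
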